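import Pool.Agent.H170R2.PC.Asym
import Pool.Agent.H174R3.D6.TaskLS

/-!
# Covering `[1, N]` by one residue class for each prime near `N^α`: almost all choices

The number of choices of residue classes with `S_a(N) < N^c` is at most
`N^((c + 2 α - 2 + δ) |P|)`, where `P` is the set of primes `N^α ≤ p < 2 N^α`, and the same holds
inside of every product of lists: if the lists have at least `N^w` elements, `w > c + 2 α - 2`, then
almost all the choices from the lists satisfy `S_a(N) ≥ N^c`.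

The proof: a choice `a` contains a small set `E` of classes which is maximal for
`|U(E)| - h |E|`, `U(E)` the union of the classes; then all the other classes lie at least half in
`U(E)`, and by the large sieve there are few classes with this property.
-/

set_option autoImplicit false

open Finset Filter Topology

namespace Pool.Agent.Results.MP_bb5cc8_nt.AlmostAllChoices

open Pool.Agent.H170R2.PC

/-- the class `r` modulo `p` in `[1, N]` -/
def cls (N p r : ℕ) : Finset ℕ := (Icc 1 N).filter (fun n => n % p = r)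

/-- the classes modulo `p` which lie at least half in `U` -/
def rich (N : ℕ) (U : Finset ℕ) (p : ℕ) : Finset ℕ :=
  (range p).filter (fun r => (cls N p r).card ≤ 2 * (U.filter (fun n => n % p = r)).card)

/-- the union of a set of classes -/
def un (N : ℕ) (E : Finset (ℕ × ℕ)) : Finset ℕ :=
  (Icc 1 N).filter (fun n => ∃ e ∈ E, n % e.1 = e.2)

lemma cls_card {N p r : ℕ} (hp : 0 < p) (hr : r < p) : N / p ≤ (cls N p r).card := by
  have h : ((range (N / p)).image (fun k => if r = 0 then (k + 1) * p else r + k * p)) ⊆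
      cls N p r := by
    intro x hx
    rw [mem_image] at hx
    obtain ⟨k, hk, rfl⟩ := hx
    rw [mem_range] at hk
    have h1 : (k + 1) * p ≤ N := by
      calc (k + 1) * p ≤ (N / p) * p := Nat.mul_le_mul_right _ hk
        _ ≤ N := Nat.div_mul_le_self _ _
    unfold cls
    rw [mem_filter, mem_Icc]
    split_ifs with h0
    · subst h0
      exact ⟨⟨Nat.mul_pos (Nat.succ_pos _) hp, h1⟩, Nat.mul_mod_left _ _⟩
    · have h2 : (k + 1) * p = k * p + p := by ring
      refine ⟨⟨by omega, by omega⟩, ?_⟩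
      rw [Nat.add_mul_mod_self_right, Nat.mod_eq_of_lt hr]
  have h2 := card_le_card h
  rw [card_image_of_injective, card_range] at h2
  · exact h2
  · intro x y hxy
    simp only at hxy
    split_ifs at hxy with h0
    · have := Nat.eq_of_mul_eq_mul_right hp hxy
      omega
    · have : x * p = y * p := by omega
      exact Nat.eq_of_mul_eq_mul_right hp this

/-- the large sieve bound for the number of rich classes -/
lemma rich_bound {D : Finset ℕ} {N Q : ℕ} {U : Finset ℕ} (hN : 0 < N)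
    (hD : ∀ p ∈ D, p.Prime ∧ p ≤ Q ∧ 2 * p ≤ N) (hU : U ⊆ Icc 1 N) (hU8 : 8 * U.card ≤ N) :
    ∑ p ∈ D, ((rich N U p).card : ℝ) / p ≤ 384 * U.card * ((N : ℝ) + (Q : ℝ) ^ 2) / (N : ℝ) ^ 2 := by
  classical
  have hLS := Pool.Agent.H174R3.D6LS.taskLS N Q D (rich N U) (D.image (fun p => ({p} : Finset ℕ)))
    (fun _ => 1) (fun q hq => (hD q hq).1) (fun q _ => filter_subset _ _) (by
      intro s hs
      rw [mem_image] at hs
      obtain ⟨p, hp, rfl⟩ := hs
      refine ⟨by simpa using hp, ?_⟩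
      rw [prod_singleton]
      exact (hD p hp).2.1)
  have hinj : Set.InjOn (fun p : ℕ => ({p} : Finset ℕ)) (D : Set ℕ) :=
    (singleton_injective).injOn
  simp only [one_mul, one_pow] at hLS
  rw [sum_image hinj] at hLS
  simp only [prod_singleton] at hLS
  have hLS' : ∀ n : ℕ, (∑ s ∈ D.image (fun p => ({p} : Finset ℕ)),
      ∏ q ∈ s, ((if n % q ∈ rich N U q then (1 : ℝ) else 0) - ((rich N U q).card : ℝ) / q)) =
      (∑ p ∈ D, (if n % p ∈ rich N U p then (1 : ℝ) else 0)) -
        ∑ p ∈ D, ((rich N U p).card : ℝ) / p := by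
    intro n
    rw [sum_image hinj]
    simp only [prod_singleton]
    rw [sum_sub_distrib]
  simp only [hLS'] at hLS
  set A : ℝ := ∑ p ∈ D, ((rich N U p).card : ℝ) / p with hA
  set F : ℕ → ℝ := fun n => ∑ p ∈ D, (if n % p ∈ rich N U p then (1 : ℝ) else 0) with hF
  have hA0 : 0 ≤ A := sum_nonneg fun p _ => by positivity
  have hNR : (0 : ℝ) < N := by exact_mod_cast hN
  have h1 : (∑ n ∈ U, (F n - A)) ^ 2 ≤ U.card * (6 * ((N : ℝ) + (Q : ℝ) ^ 2) * A) := by
    refine (sq_sum_le_card_mul_sum_sq).trans ?_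
    refine mul_le_mul_of_nonneg_left ?_ (Nat.cast_nonneg _)
    refine le_trans (sum_le_sum_of_subset_of_nonneg hU fun _ _ _ => sq_nonneg _) hLS
  -- lower bound for the sum of `F` over `U`
  have h2 : (N : ℝ) / 4 * A ≤ ∑ n ∈ U, F n := by
    rw [hF, sum_comm, hA, mul_sum]
    refine sum_le_sum fun p hp => ?_
    obtain ⟨hp1, hp2, hp3⟩ := hD p hp
    have hpR : (0 : ℝ) < p := by exact_mod_cast hp1.pos
    have e1 : ∑ n ∈ U, (if n % p ∈ rich N U p then (1 : ℝ) else 0) =
        ∑ r ∈ rich N U p, ((U.filter (fun n => n % p = r)).card : ℝ) := by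
      rw [← sum_filter, sum_const, nsmul_eq_mul, mul_one]
      have : (U.filter (fun n => n % p ∈ rich N U p)).card =
          ∑ r ∈ rich N U p, ((U.filter (fun n => n % p ∈ rich N U p)).filter (fun n => n % p = r)).card :=
        card_eq_sum_card_fiberwise (fun n hn => (mem_filter.1 hn).2)
      rw [this]
      push_cast
      refine sum_congr rfl fun r hr => ?_
      congr 2
      ext n
      simp only [mem_filter]
      constructor
      · rintro ⟨⟨h, _⟩, h'⟩; exact ⟨h, h'⟩
      · rintro ⟨h, h'⟩; exact ⟨⟨h, by rw [h']; exact hr⟩, h'⟩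
    rw [e1]
    have e2 : ∀ r ∈ rich N U p, (N : ℝ) / (4 * p) ≤ ((U.filter (fun n => n % p = r)).card : ℝ) := by
      intro r hr
      unfold rich at hr
      rw [mem_filter, mem_range] at hr
      have h3 := cls_card (N := N) hp1.pos hr.1
      have h4 : N / p ≤ 2 * (U.filter (fun n => n % p = r)).card := h3.trans hr.2
      have h5 : (N : ℝ) / p < ((N / p : ℕ) : ℝ) + 1 := by
        rw [div_lt_iff₀ hpR]
        have h6 : N < (N / p + 1) * p := by
          have := Nat.lt_div_mul_add (a := N) (b := p) hp1.pos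
          rw [add_mul, one_mul]; exact this
        exact_mod_cast h6
      have h7 : 2 ≤ N / p := by
        rw [Nat.le_div_iff_mul_le hp1.pos]; exact hp3
      have h7' : (2 : ℝ) ≤ ((N / p : ℕ) : ℝ) := by exact_mod_cast h7
      have h8 : ((N / p : ℕ) : ℝ) ≤ 2 * ((U.filter (fun n => n % p = r)).card : ℝ) := by
        exact_mod_cast h4
      have h9 : (N : ℝ) / (4 * p) = (N : ℝ) / p / 4 := by
        field_simp
      rw [h9]
      linarith
    calc (N : ℝ) / 4 * (((rich N U p).card : ℝ) / p) = ∑ _r ∈ rich N U p, (N : ℝ) / (4 * p) := by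
          rw [sum_const, nsmul_eq_mul]
          ring
      _ ≤ _ := sum_le_sum e2
  have h3 : (N : ℝ) / 8 * A ≤ ∑ n ∈ U, (F n - A) := by
    rw [sum_sub_distrib, sum_const, nsmul_eq_mul]
    have h8 : (8 : ℝ) * U.card ≤ N := by exact_mod_cast hU8
    nlinarith
  clear_value A F
  have hNA : 0 ≤ (N : ℝ) / 8 * A := mul_nonneg (by positivity) hA0
  have h4 : ((N : ℝ) / 8 * A) ^ 2 ≤ U.card * (6 * ((N : ℝ) + (Q : ℝ) ^ 2) * A) :=
    (pow_le_pow_left₀ hNA h3 2).trans h1
  rcases hA0.eq_or_lt with h0 | h0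
  · rw [← h0]; positivity
  · rw [le_div_iff₀ (by positivity)]
    have h5 : (A * (N : ℝ) ^ 2) * A ≤ (384 * U.card * ((N : ℝ) + (Q : ℝ) ^ 2)) * A := by nlinarith
    exact le_of_mul_le_mul_right h5 h0

/-- the maximal set of classes -/
lemma greedy {D : Finset ℕ} {N h : ℕ} {a : ℕ → ℕ}
    (ha : ∀ p ∈ D, a p < p) (hh : ∀ p ∈ D, 2 * h ≤ (cls N p (a p)).card) :
    ∃ E ⊆ D.image (fun p => (p, a p)), h * E.card ≤ (un N E).card ∧
      ∀ p ∈ D, a p ∈ rich N (un N E) p := by
  classical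
  obtain ⟨E, hE, hmax⟩ := exists_max_image (D.image (fun p => (p, a p))).powerset
    (fun E => ((un N E).card : ℤ) - h * E.card) ⟨∅, empty_mem_powerset _⟩
  rw [mem_powerset] at hE
  refine ⟨E, hE, ?_, ?_⟩
  · have := hmax ∅ (empty_mem_powerset _)
    simp only [card_empty, Nat.cast_zero, mul_zero, sub_zero] at this
    have h0 : (0 : ℤ) ≤ ((un N ∅).card : ℤ) := by positivity
    have h1 : (h : ℤ) * E.card ≤ ((un N E).card : ℤ) := by linarith
    exact_mod_cast h1
  · intro p hp
    by_contra hnot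
    have hlt : 2 * ((un N E).filter (fun n => n % p = a p)).card < (cls N p (a p)).card := by
      by_contra hc
      rw [not_lt] at hc
      exact hnot (by
        unfold rich
        rw [mem_filter, mem_range]
        exact ⟨ha p hp, hc⟩)
    have hsub : (p, a p) ∉ E := by
      intro hmem
      have : cls N p (a p) ⊆ (un N E).filter (fun n => n % p = a p) := by
        intro n hn
        unfold cls at hn
        rw [mem_filter] at hn
        rw [mem_filter]
        refine ⟨?_, hn.2⟩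
        unfold un
        rw [mem_filter]
        exact ⟨hn.1, (p, a p), hmem, hn.2⟩
      have := card_le_card this
      omega
    have hins : un N (insert (p, a p) E) = un N E ∪ cls N p (a p) := by
      ext n
      unfold un cls
      simp only [mem_filter, mem_union, mem_insert, exists_eq_or_imp]
      rw [← and_or_left, or_comm]
    have hcard : (un N E ∪ cls N p (a p)).card +
        ((un N E).filter (fun n => n % p = a p)).card = (un N E).card + (cls N p (a p)).card := by
      have hi : un N E ∩ cls N p (a p) = (un N E).filter (fun n => n % p = a p) := by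
        ext n
        unfold un cls
        simp only [mem_filter, mem_inter]
        tauto
      rw [← hi]
      exact card_union_add_card_inter _ _
    have hm := hmax (insert (p, a p) E) (by
      rw [mem_powerset]
      exact insert_subset (mem_image_of_mem _ hp) hE)
    rw [hins, card_insert_of_notMem hsub] at hm
    push_cast at hm
    have hhp := hh p hp
    have hm' : ((un N E ∪ cls N p (a p)).card : ℤ) ≤ (un N E).card + h := by linarith
    omega

/-- few small sets of classes -/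
lemma card_small (T : Finset (ℕ × ℕ)) (k : ℕ) :
    (T.powerset.filter (fun E => E.card ≤ k)).card ≤ (T.card + 1) ^ k := by
  classical
  have h1 : (T.powerset.filter (fun E => E.card ≤ k)).card ≤
      ∑ j ∈ range (k + 1), T.card.choose j := by
    have : T.powerset.filter (fun E => E.card ≤ k) ⊆
        (range (k + 1)).biUnion (fun j => T.powersetCard j) := by
      intro E hE
      rw [mem_filter, mem_powerset] at hE
      rw [mem_biUnion]
      exact ⟨E.card, by rw [mem_range]; omega, by rw [mem_powersetCard]; exact ⟨hE.1, rfl⟩⟩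
    refine (card_le_card this).trans (card_biUnion_le.trans ?_)
    simp only [card_powersetCard]
    exact le_rfl
  refine h1.trans ?_
  clear h1
  induction k with
  | zero => simp
  | succ k ih =>
    rw [sum_range_succ]
    have h2 : T.card.choose (k + 1) ≤ T.card * (T.card + 1) ^ k := by
      calc T.card.choose (k + 1) ≤ T.card ^ (k + 1) := Nat.choose_le_pow _ _
        _ = T.card * T.card ^ k := by ring
        _ ≤ _ := Nat.mul_le_mul_left _ (Nat.pow_le_pow_left (Nat.le_succ _) _)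
    calc _ ≤ (T.card + 1) ^ k + T.card * (T.card + 1) ^ k := Nat.add_le_add ih h2
      _ = _ := by ring

/-- the inequality of the means -/
lemma prod_le {ι : Type*} [Fintype ι] (x : ι → ℝ) {c : ℝ} (hc : 0 < c) (hx : ∀ i, 0 ≤ x i)
    (h : ∑ i, x i ≤ c * Fintype.card ι) : ∏ i, x i ≤ c ^ Fintype.card ι := by
  have h1 : ∏ i, x i ≤ ∏ i, (c * Real.exp (x i / c - 1)) := by
    refine prod_le_prod (fun i _ => hx i) fun i _ => ?_
    have h2 := Real.add_one_le_exp (x i / c - 1)
    have h3 : x i / c ≤ Real.exp (x i / c - 1) := by linarith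
    calc x i = c * (x i / c) := by field_simp
      _ ≤ _ := mul_le_mul_of_nonneg_left h3 hc.le
  refine h1.trans ?_
  rw [prod_mul_distrib, prod_const, ← Real.exp_sum, card_univ]
  have h4 : ∑ i, (x i / c - 1) ≤ 0 := by
    rw [sum_sub_distrib, ← sum_div, sum_const, nsmul_eq_mul, mul_one, card_univ]
    have : (∑ i, x i) / c ≤ Fintype.card ι := by
      rw [div_le_iff₀ hc]; linarith
    linarith
  have h5 : Real.exp (∑ i, (x i / c - 1)) ≤ 1 := Real.exp_le_one_iff.2 h4
  calc c ^ Fintype.card ι * Real.exp (∑ i, (x i / c - 1)) ≤ c ^ Fintype.card ι * 1 :=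
        mul_le_mul_of_nonneg_left h5 (by positivity)
    _ = _ := mul_one _

/-- the finite counting bound -/
lemma count {D : Finset ℕ} {N h M k Q : ℕ} {c : ℝ} (hc : 0 < c)
    (hD : ∀ p ∈ D, 0 < p ∧ p ≤ Q ∧ 2 * h ≤ N / p) (hk : M < h * (k + 1))
    (hrich : ∀ U ⊆ Icc 1 N, U.card ≤ M → ∑ p ∈ D, ((rich N U p).card : ℝ) ≤ c * D.card) :
    ((((Fintype.piFinset (fun p : D => range p.1)).filter
      (fun a => (un N (D.attach.image (fun p => (p.1, a p)))).card ≤ M)).card : ℕ) : ℝ) ≤
      (((D.card * (Q + 1) + 1) ^ k : ℕ) : ℝ) * c ^ D.card := by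
  classical
  set T : Finset (ℕ × ℕ) := D ×ˢ range (Q + 1) with hT
  set EE := (T.powerset.filter (fun E => E.card ≤ k)).filter (fun E => (un N E).card ≤ M) with hEE
  have hsub : (Fintype.piFinset (fun p : D => range p.1)).filter
      (fun a => (un N (D.attach.image (fun p => (p.1, a p)))).card ≤ M) ⊆
      EE.biUnion (fun E => Fintype.piFinset (fun p : D => rich N (un N E) p.1)) := by
    intro a ha
    rw [mem_filter, Fintype.mem_piFinset] at ha
    obtain ⟨ha1, ha2⟩ := ha
    set b : ℕ → ℕ := fun p => if hp : p ∈ D then a ⟨p, hp⟩ else 0 with hb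
    have hbp : ∀ p (hp : p ∈ D), b p = a ⟨p, hp⟩ := by
      intro p hp
      simp only [hb, hp, dif_pos]
    have hblt : ∀ p ∈ D, b p < p := by
      intro p hp
      rw [hbp p hp]
      have := ha1 ⟨p, hp⟩
      rwa [mem_range] at this
    obtain ⟨E, hE1, hE2, hE3⟩ := greedy (D := D) (N := N) (h := h) (a := b) hblt (by
      intro p hp
      exact (hD p hp).2.2.trans (cls_card (hD p hp).1 (hblt p hp)))
    have hgraph : D.image (fun p => (p, b p)) = D.attach.image (fun p => (p.1, a p)) := by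
      ext e
      rw [mem_image, mem_image]
      constructor
      · rintro ⟨p, hp, rfl⟩
        exact ⟨⟨p, hp⟩, mem_attach _ _, by rw [hbp p hp]⟩
      · rintro ⟨p, _, rfl⟩
        exact ⟨p.1, p.2, by rw [hbp p.1 p.2]⟩
    rw [hgraph] at hE1
    have hun : un N E ⊆ un N (D.attach.image (fun p => (p.1, a p))) := by
      intro n hn
      unfold un at hn ⊢
      rw [mem_filter] at hn ⊢
      obtain ⟨h1, e, he, h2⟩ := hn
      exact ⟨h1, e, hE1 he, h2⟩
    have hunc : (un N E).card ≤ M := (card_le_card hun).trans ha2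
    rw [mem_biUnion]
    refine ⟨E, ?_, ?_⟩
    · rw [hEE, mem_filter, mem_filter, mem_powerset]
      refine ⟨⟨?_, ?_⟩, hunc⟩
      · intro e he
        have := hE1 he
        rw [mem_image] at this
        obtain ⟨p, _, rfl⟩ := this
        rw [hT, mem_product, mem_range]
        refine ⟨p.2, ?_⟩
        have h1 := ha1 p
        rw [mem_range] at h1
        have h2 := (hD p.1 p.2).2.1
        simp only
        omega
      · by_contra hlt
        rw [not_le] at hlt
        have h1 : h * (k + 1) ≤ h * E.card := Nat.mul_le_mul_left _ hlt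
        omega
    · rw [Fintype.mem_piFinset]
      intro p
      have := hE3 p.1 p.2
      rwa [hbp p.1 p.2] at this
  have h1 := (card_le_card hsub).trans card_biUnion_le
  have h2 : ((∑ E ∈ EE, (Fintype.piFinset (fun p : D => rich N (un N E) p.1)).card : ℕ) : ℝ) ≤
      ∑ _E ∈ EE, c ^ D.card := by
    push_cast
    refine sum_le_sum fun E hE => ?_
    rw [hEE, mem_filter] at hE
    rw [Fintype.card_piFinset]
    push_cast
    have h3 := prod_le (fun p : D => ((rich N (un N E) p.1).card : ℝ)) hc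
      (fun _ => Nat.cast_nonneg _) (by
        rw [Fintype.card_coe]
        refine le_trans (le_of_eq ?_) (hrich (un N E) (filter_subset _ _) hE.2)
        exact sum_coe_sort D (fun p => ((rich N (un N E) p).card : ℝ)))
    rwa [Fintype.card_coe] at h3
  have h3 : (EE.card : ℝ) ≤ (((D.card * (Q + 1) + 1) ^ k : ℕ) : ℝ) := by
    have := (card_le_card (filter_subset (fun E => (un N E).card ≤ M) _)).trans (card_small T k)
    rw [hT, card_product, card_range] at this
    exact_mod_cast this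
  calc _ ≤ ((∑ E ∈ EE, (Fintype.piFinset (fun p : D => rich N (un N E) p.1)).card : ℕ) : ℝ) := by
        exact_mod_cast h1
    _ ≤ ∑ _E ∈ EE, c ^ D.card := h2
    _ = (EE.card : ℝ) * c ^ D.card := by rw [sum_const, nsmul_eq_mul]
    _ ≤ _ := mul_le_mul_of_nonneg_right h3 (by positivity)

/-- The set of the choices `a` of residue classes (normalised by `a p = 0` outside of the primes
`N^α ≤ p < 2 N^α`) with `S_a(N) < N^c`. -/
def Bad (α c : ℝ) (N : ℕ) : Set ((p : ℕ) → ZMod p) :=
  {a | (∀ p : ℕ, ¬ InRange α N p → a p = 0) ∧ (coveredCount α N a : ℝ) < (N : ℝ) ^ c}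

lemma bad_card {α c : ℝ} {N M : ℕ} (hM : M = ⌊(N : ℝ) ^ c⌋₊) :
    (Bad α c N).Finite ∧ (Bad α c N).ncard ≤
      (((Fintype.piFinset (fun p : PD α N => range p.1)).filter
        (fun a => (un N ((PD α N).attach.image (fun p => (p.1, a p)))).card ≤ M)).card) := by
  classical
  set f : ((p : ℕ) → ZMod p) → (PD α N → ℕ) := fun a p => (a p.1).val with hf
  have hmaps : ∀ a ∈ Bad α c N, f a ∈ (((Fintype.piFinset (fun p : PD α N => range p.1)).filter
        (fun a => (un N ((PD α N).attach.image (fun p => (p.1, a p)))).card ≤ M) :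
          Finset (PD α N → ℕ)) : Set (PD α N → ℕ)) := by
    rintro a ⟨_, ha⟩
    rw [mem_coe, mem_filter, Fintype.mem_piFinset]
    have hprime : ∀ p ∈ PD α N, p.Prime := fun p hp => (mem_PD.1 hp).1
    refine ⟨fun p => ?_, ?_⟩
    · rw [mem_range]
      have : NeZero p.1 := ⟨(hprime p.1 p.2).ne_zero⟩
      exact ZMod.val_lt _
    · rw [coveredCount_eq] at ha
      have e : un N ((PD α N).attach.image (fun p => (p.1, f a p))) = Cov (PD α N) a N := by
        ext n
        unfold un Cov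
        rw [mem_filter, mem_filter]
        refine and_congr_right fun _ => ?_
        constructor
        · rintro ⟨e, he, h⟩
          rw [mem_image] at he
          obtain ⟨p, _, rfl⟩ := he
          have : NeZero p.1 := ⟨(hprime p.1 p.2).ne_zero⟩
          refine ⟨p.1, p.2, ?_⟩
          apply ZMod.val_injective
          rw [ZMod.val_natCast]
          exact h
        · rintro ⟨p, hp, h⟩
          refine ⟨(p, (a p).val), mem_image.2 ⟨⟨p, hp⟩, mem_attach _ _, rfl⟩, ?_⟩
          simp only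
          rw [← h, ZMod.val_natCast]
      rw [e, hM]
      exact Nat.le_floor ha.le
  have hinj : Set.InjOn f (Bad α c N) := by
    rintro a ⟨ha, _⟩ b ⟨hb, _⟩ hab
    funext p
    by_cases hp : InRange α N p
    · have := congrFun hab ⟨p, mem_PD.2 hp⟩
      simp only [hf] at this
      have : NeZero p := ⟨hp.1.ne_zero⟩
      exact ZMod.val_injective _ (by assumption)
    · rw [ha p hp, hb p hp]
  refine ⟨Set.Finite.of_injOn hmaps hinj (finite_toSet _), ?_⟩
  have := Set.ncard_le_ncard_of_injOn f hmaps hinj (finite_toSet _)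
  rwa [Set.ncard_coe_finset] at this

theorem bad_asymp {α c δ : ℝ} (hα : 1 / 2 < α) (hα1 : α < 1) (hc : c < 1) (hδ : 0 < δ) :
    ∀ᶠ N : ℕ in atTop, (Bad α c N).Finite ∧
      ((Bad α c N).ncard : ℝ) ≤ (N : ℝ) ^ ((c + 2 * α - 2 + δ) * ((PD α N).card : ℝ)) := by
  set η : ℝ := min (δ / 3) (min ((1 - c) / 2) (1 / 2)) with hη
  have hη0 : 0 < η := lt_min (by linarith) (lt_min (by linarith) (by norm_num))
  have hηδ : 3 * η ≤ δ := by
    have := min_le_left (δ / 3) (min ((1 - c) / 2) (1 / 2))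
    linarith
  have hηc : η ≤ (1 - c) / 2 := (min_le_right _ _).trans (min_le_left _ _)
  have hη1 : η ≤ 1 / 2 := (min_le_right _ _).trans (min_le_right _ _)
  clear_value η
  have hα0 : 0 < α := by linarith
  filter_upwards [ev_card hα0 hα1.le hη0 (by linarith), ev_const 16 (show 0 < 1 - α by linarith),
    ev_const 8 (show 0 < 1 - c by linarith), ev_const 7680 hη0,
    ev_const (48 / η) (show 0 < 1 - c - η by linarith), eventually_ge_atTop 13]
    with N h1 h2 h3 h4 h5 hN13
  have hN0 : (0 : ℝ) < N := by exact_mod_cast (by omega : 0 < N)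
  have hN1 : (1 : ℝ) ≤ N := by exact_mod_cast (by omega : 1 ≤ N)
  have hN13' : (13 : ℝ) ≤ N := by exact_mod_cast hN13
  obtain ⟨M, hM⟩ : ∃ M, M = ⌊(N : ℝ) ^ c⌋₊ := ⟨_, rfl⟩
  obtain ⟨hfin, hbad⟩ := bad_card (α := α) hM
  refine ⟨hfin, ?_⟩
  obtain ⟨X, hX⟩ : ∃ X, X = (N : ℝ) ^ α := ⟨_, rfl⟩
  obtain ⟨Q, hQ⟩ : ∃ Q, Q = ⌈2 * X⌉₊ := ⟨_, rfl⟩
  obtain ⟨h, hh⟩ : ∃ h, h = ⌊(N : ℝ) ^ (1 - α) / 8⌋₊ := ⟨_, rfl⟩
  obtain ⟨k, hk⟩ : ∃ k, k = ⌊16 * (N : ℝ) ^ (c + α - 1)⌋₊ := ⟨_, rfl⟩
  have hX1 : 1 ≤ X := by rw [hX]; exact Real.one_le_rpow hN1 hα0.le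
  have hXN : X ≤ N := by
    rw [hX]
    calc (N : ℝ) ^ α ≤ (N : ℝ) ^ (1 : ℝ) := Real.rpow_le_rpow_of_exponent_le hN1 hα1.le
      _ = N := Real.rpow_one _
  have hNX : (N : ℝ) ≤ X ^ 2 := by
    rw [hX, ← Real.rpow_mul_natCast hN0.le]
    calc (N : ℝ) = (N : ℝ) ^ (1 : ℝ) := (Real.rpow_one _).symm
      _ ≤ _ := Real.rpow_le_rpow_of_exponent_le hN1 (by push_cast; linarith)
  have hQ3 : (Q : ℝ) ≤ 3 * X := by
    have := Nat.ceil_lt_add_one (show 0 ≤ 2 * X by positivity)
    rw [← hQ] at this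
    linarith
  have hMR : (M : ℝ) ≤ (N : ℝ) ^ c := by rw [hM]; exact Nat.floor_le (by positivity)
  have hNc : (N : ℝ) ^ (1 - c) * (N : ℝ) ^ c = N := by
    rw [← Real.rpow_add hN0]; simp
  have hNα : (N : ℝ) ^ (1 - α) * X = N := by
    rw [hX, ← Real.rpow_add hN0]; simp
  have hc0 : (0 : ℝ) < (N : ℝ) ^ c := Real.rpow_pos_of_pos hN0 _
  have hhR : (h : ℝ) ≤ (N : ℝ) ^ (1 - α) / 8 := by rw [hh]; exact Nat.floor_le (by positivity)
  have hhR' : (N : ℝ) ^ (1 - α) / 16 ≤ h := by
    have := Nat.lt_floor_add_one ((N : ℝ) ^ (1 - α) / 8)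
    rw [← hh] at this
    linarith
  -- the classes
  have hD : ∀ p ∈ PD α N, 0 < p ∧ p ≤ Q ∧ 2 * h ≤ N / p := by
    intro p hp
    obtain ⟨p1, p2, p3⟩ := mem_PD.1 hp
    rw [← hX] at p2 p3
    refine ⟨p1.pos, ?_, ?_⟩
    · have : (p : ℝ) ≤ Q := by
        rw [hQ]; exact p3.le.trans (Nat.le_ceil _)
      exact_mod_cast this
    · rw [Nat.le_div_iff_mul_le p1.pos]
      have h6 : (2 : ℝ) * h * p ≤ N := by
        have hp0 : (0 : ℝ) ≤ p := Nat.cast_nonneg _
        calc (2 : ℝ) * h * p ≤ 2 * ((N : ℝ) ^ (1 - α) / 8) * (2 * X) := by gcongr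
          _ = (N : ℝ) ^ (1 - α) * X / 2 := by ring
          _ ≤ N := by rw [hNα]; linarith
      exact_mod_cast h6
  have hkM : M < h * (k + 1) := by
    have h6 : 16 * (N : ℝ) ^ (c + α - 1) < k + 1 := by rw [hk]; exact Nat.lt_floor_add_one _
    have h7 : (N : ℝ) ^ c < h * (k + 1) := by
      calc (N : ℝ) ^ c = (N : ℝ) ^ (1 - α) / 16 * (16 * (N : ℝ) ^ (c + α - 1)) := by
            rw [show (N : ℝ) ^ (1 - α) / 16 * (16 * (N : ℝ) ^ (c + α - 1)) =
              (N : ℝ) ^ (1 - α) * (N : ℝ) ^ (c + α - 1) by ring, ← Real.rpow_add hN0]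
            congr 1; ring
        _ < (N : ℝ) ^ (1 - α) / 16 * (k + 1) := by
            apply mul_lt_mul_of_pos_left h6
            have : (0 : ℝ) < (N : ℝ) ^ (1 - α) := Real.rpow_pos_of_pos hN0 _
            positivity
        _ ≤ h * (k + 1) := by gcongr
    have h8 : (M : ℝ) < ((h * (k + 1) : ℕ) : ℝ) := by
      push_cast
      exact hMR.trans_lt h7
    exact_mod_cast h8
  have h16 : 16 * X ≤ N := by
    rw [← hNα]; nlinarith
  have hM8 : 8 * M ≤ N := by
    have : (8 : ℝ) * M ≤ N := by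
      rw [← hNc]
      nlinarith
    exact_mod_cast this
  obtain ⟨c0, hc0'⟩ : ∃ c0, c0 = (N : ℝ) ^ (c + 2 * α - 2 + 2 * η) := ⟨_, rfl⟩
  have hc0pos : 0 < c0 := by rw [hc0']; exact Real.rpow_pos_of_pos hN0 _
  have hrich : ∀ U ⊆ Icc 1 N, U.card ≤ M →
      ∑ p ∈ PD α N, ((rich N U p).card : ℝ) ≤ c0 * (PD α N).card := by
    intro U hU hUM
    have h6 := rich_bound (D := PD α N) (N := N) (Q := Q) (U := U) (by omega) (by
      intro p hp
      obtain ⟨p1, p2, p3⟩ := mem_PD.1 hp
      rw [← hX] at p2 p3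
      refine ⟨p1, (hD p hp).2.1, ?_⟩
      have : (2 : ℝ) * p ≤ N := by linarith
      exact_mod_cast this) hU (by omega)
    have h7 : ∑ p ∈ PD α N, ((rich N U p).card : ℝ) ≤
        2 * X * ∑ p ∈ PD α N, ((rich N U p).card : ℝ) / p := by
      rw [mul_sum]
      refine sum_le_sum fun p hp => ?_
      obtain ⟨p1, p2, p3⟩ := mem_PD.1 hp
      rw [← hX] at p2 p3
      have hpR : (0 : ℝ) < p := by exact_mod_cast p1.pos
      rw [← mul_div_assoc, le_div_iff₀ hpR, mul_comm (2 * X)]
      exact mul_le_mul_of_nonneg_left p3.le (Nat.cast_nonneg _)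
    have hUR : (U.card : ℝ) ≤ (N : ℝ) ^ c := le_trans (by exact_mod_cast hUM) hMR
    have h8 : 384 * (U.card : ℝ) * ((N : ℝ) + (Q : ℝ) ^ 2) / (N : ℝ) ^ 2 ≤
        3840 * (N : ℝ) ^ c * X ^ 2 / (N : ℝ) ^ 2 := by
      apply div_le_div_of_nonneg_right _ (by positivity)
      have h9 : (N : ℝ) + (Q : ℝ) ^ 2 ≤ 10 * X ^ 2 := by
        have : (Q : ℝ) ^ 2 ≤ (3 * X) ^ 2 := pow_le_pow_left₀ (Nat.cast_nonneg _) hQ3 2
        nlinarith
      calc 384 * (U.card : ℝ) * ((N : ℝ) + (Q : ℝ) ^ 2) ≤ 384 * (N : ℝ) ^ c * (10 * X ^ 2) := by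
            gcongr
        _ = _ := by ring
    have h10 : 2 * X * (3840 * (N : ℝ) ^ c * X ^ 2 / (N : ℝ) ^ 2) =
        7680 * (N : ℝ) ^ (c + 3 * α - 2) := by
      have e1 : (N : ℝ) ^ (c + 3 * α - 2) = (N : ℝ) ^ c * X ^ 3 / (N : ℝ) ^ 2 := by
        rw [hX, ← Real.rpow_mul_natCast hN0.le, ← Real.rpow_natCast (N : ℝ) 2, ← Real.rpow_add hN0,
          ← Real.rpow_sub hN0]
        congr 1
        push_cast
        ring
      rw [e1]; ring
    calc ∑ p ∈ PD α N, ((rich N U p).card : ℝ)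
        ≤ 2 * X * ∑ p ∈ PD α N, ((rich N U p).card : ℝ) / p := h7
      _ ≤ 2 * X * (3840 * (N : ℝ) ^ c * X ^ 2 / (N : ℝ) ^ 2) := by
          apply mul_le_mul_of_nonneg_left (h6.trans h8) (by positivity)
      _ = 7680 * (N : ℝ) ^ (c + 3 * α - 2) := h10
      _ ≤ (N : ℝ) ^ η * (N : ℝ) ^ (c + 3 * α - 2) := by gcongr
      _ = c0 * (N : ℝ) ^ (α - η) := by
          rw [hc0', ← Real.rpow_add hN0, ← Real.rpow_add hN0]
          congr 1
          ring
      _ ≤ c0 * (PD α N).card := by gcongr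
  have hcount := count (D := PD α N) (N := N) (h := h) (M := M) (k := k) (Q := Q) hc0pos hD hkM hrich
  -- the first factor
  have hDQ : (PD α N).card ≤ Q := by
    have : PD α N ⊆ range Q := by
      intro p hp
      obtain ⟨p1, p2, p3⟩ := mem_PD.1 hp
      rw [← hX] at p3
      rw [mem_range, hQ]
      exact Nat.lt_ceil.2 p3
    have := card_le_card this
    rwa [card_range] at this
  have hDQ' : ((PD α N).card : ℝ) ≤ 3 * X := le_trans (by exact_mod_cast hDQ) hQ3
  have hbase : (((PD α N).card * (Q + 1) + 1 : ℕ) : ℝ) ≤ (N : ℝ) ^ 3 := by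
    push_cast
    calc ((PD α N).card : ℝ) * ((Q : ℝ) + 1) + 1 ≤ (3 * X) * (3 * X + X) + X ^ 2 := by
          have hX2 : 1 ≤ X ^ 2 := one_le_pow₀ hX1
          gcongr
      _ = 13 * X ^ 2 := by ring
      _ ≤ N * (N : ℝ) ^ 2 := by gcongr
      _ = _ := by ring
  have hfirst : ((((PD α N).card * (Q + 1) + 1) ^ k : ℕ) : ℝ) ≤
      (N : ℝ) ^ (η * ((PD α N).card : ℝ)) := by
    rw [Nat.cast_pow]
    calc (((PD α N).card * (Q + 1) + 1 : ℕ) : ℝ) ^ k ≤ ((N : ℝ) ^ 3) ^ k :=
          pow_le_pow_left₀ (Nat.cast_nonneg _) hbase k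
      _ = (N : ℝ) ^ ((3 : ℝ) * k) := by
          rw [← pow_mul, ← Real.rpow_natCast]
          push_cast
          rfl
      _ ≤ _ := by
          refine Real.rpow_le_rpow_of_exponent_le hN1 ?_
          have h6 : (k : ℝ) ≤ 16 * (N : ℝ) ^ (c + α - 1) := by
            rw [hk]; exact Nat.floor_le (by positivity)
          calc (3 : ℝ) * k ≤ 48 * (N : ℝ) ^ (c + α - 1) := by linarith
            _ = η * (48 / η * (N : ℝ) ^ (c + α - 1)) := by field_simp
            _ ≤ η * ((N : ℝ) ^ (1 - c - η) * (N : ℝ) ^ (c + α - 1)) := by gcongr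
            _ = η * (N : ℝ) ^ (α - η) := by
                rw [← Real.rpow_add hN0]
                congr 2
                ring
            _ ≤ η * (PD α N).card := by gcongr
  calc ((Bad α c N).ncard : ℝ) ≤ _ := by exact_mod_cast hbad
    _ ≤ _ := hcount
    _ ≤ (N : ℝ) ^ (η * ((PD α N).card : ℝ)) * c0 ^ (PD α N).card := by gcongr
    _ = (N : ℝ) ^ ((c + 2 * α - 2 + 3 * η) * ((PD α N).card : ℝ)) := by
        rw [hc0', ← Real.rpow_natCast, ← Real.rpow_mul hN0.le, ← Real.rpow_add hN0]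
        congr 1
        ring
    _ ≤ _ := by
        refine Real.rpow_le_rpow_of_exponent_le hN1 ?_
        gcongr

theorem lists_asymp {α c w δ : ℝ} (hα : 1 / 2 < α) (hα1 : α < 1) (hc : c < 1) (hδ : 0 < δ) :
    ∀ᶠ N : ℕ in atTop, ∀ L : (p : ℕ) → Finset (ZMod p),
      (∀ p ∈ PD α N, (N : ℝ) ^ w ≤ ((L p).card : ℝ)) →
      (({a ∈ Bad α c N | ∀ p ∈ PD α N, a p ∈ L p}.ncard : ℕ) : ℝ) ≤
        (N : ℝ) ^ (-(w - (c + 2 * α - 2) - δ) * ((PD α N).card : ℝ)) *
          ∏ p ∈ PD α N, ((L p).card : ℝ) := by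
  filter_upwards [bad_asymp hα hα1 hc hδ, eventually_ge_atTop 1] with N h1 hN1 L hL
  have hN0 : (0 : ℝ) < N := by exact_mod_cast (by omega : 0 < N)
  have h2 : (({a ∈ Bad α c N | ∀ p ∈ PD α N, a p ∈ L p}.ncard : ℕ) : ℝ) ≤ (Bad α c N).ncard := by
    have := Set.ncard_le_ncard (Set.sep_subset (Bad α c N) (fun a => ∀ p ∈ PD α N, a p ∈ L p)) h1.1
    exact_mod_cast this
  have h3 : (N : ℝ) ^ (w * ((PD α N).card : ℝ)) ≤ ∏ p ∈ PD α N, ((L p).card : ℝ) := by
    rw [Real.rpow_mul hN0.le, Real.rpow_natCast, ← prod_const]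
    exact prod_le_prod (fun _ _ => by positivity) hL
  refine (h2.trans h1.2).trans ?_
  calc (N : ℝ) ^ ((c + 2 * α - 2 + δ) * ((PD α N).card : ℝ))
      = (N : ℝ) ^ (-(w - (c + 2 * α - 2) - δ) * ((PD α N).card : ℝ)) *
        (N : ℝ) ^ (w * ((PD α N).card : ℝ)) := by
        rw [← Real.rpow_add hN0]
        congr 1
        ring
    _ ≤ _ := by gcongr

theorem windows_asymp {α w ε : ℝ} (hα : 1 / 2 < α) (hα1 : α < 1) (hw : w ≤ 2 * α - 1)
    (hε : 0 < ε) :
    ∀ᶠ N : ℕ in atTop, ∀ a : (p : ℕ) → ZMod p, ∃ b : (p : ℕ) → ZMod p,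
      (∀ p ∈ PD α N, ∃ t : ℕ, (t : ℝ) ≤ (N : ℝ) ^ w ∧ b p = a p + t) ∧
      (N : ℝ) ^ (2 - 2 * α + w - ε) ≤ (coveredCount α N b : ℝ) := by
  classical
  filter_upwards [lists_asymp (w := w) (c := 2 - 2 * α + w - ε) hα hα1 (by linarith)
    (show 0 < ε / 2 by linarith), ev_const 2 (show 0 < α - w by linarith),
    ev_const 2 (show 0 < α by linarith), ev_card (show 0 < α by linarith) hα1.le
    (show (0 : ℝ) < 1 / 2 by norm_num) (by norm_num), eventually_ge_atTop 2,
    bad_asymp (α := α) (c := 2 - 2 * α + w - ε) hα hα1 (by linarith)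
      (show (0 : ℝ) < 1 by norm_num)]
    with N h1 h2 h3 h4 hN2 h5 a
  have hN1 : (1 : ℝ) < N := by exact_mod_cast (by omega : 1 < N)
  have hN0 : (0 : ℝ) < N := by linarith
  have hcard : 0 < (PD α N).card := by
    have : (0 : ℝ) < (PD α N).card := lt_of_lt_of_le (Real.rpow_pos_of_pos hN0 _) h4
    exact_mod_cast this
  set m : ℕ := ⌊(N : ℝ) ^ w⌋₊ with hm
  have hmR : (m : ℝ) ≤ (N : ℝ) ^ w := Nat.floor_le (by positivity)
  set L : (p : ℕ) → Finset (ZMod p) := fun p => (range (m + 1)).image (fun t : ℕ => a p + t)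
    with hL
  have hmp : ∀ p ∈ PD α N, m + 1 ≤ p := by
    intro p hp
    obtain ⟨p1, p2, p3⟩ := mem_PD.1 hp
    have e : (N : ℝ) ^ α = (N : ℝ) ^ (α - w) * (N : ℝ) ^ w := by
      rw [← Real.rpow_add hN0]; simp
    have h6 : 2 * (N : ℝ) ^ w ≤ (N : ℝ) ^ α := by
      rw [e]; gcongr
    have : ((m + 1 : ℕ) : ℝ) ≤ p := by
      push_cast
      linarith
    exact_mod_cast this
  have hLc : ∀ p ∈ PD α N, (L p).card = m + 1 := by
    intro p hp
    simp only [hL]
    rw [card_image_of_injOn, card_range]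
    intro s hs t ht hst
    rw [coe_range, Set.mem_Iio] at hs ht
    simp only [add_right_inj] at hst
    rw [ZMod.natCast_eq_natCast_iff'] at hst
    have := hmp p hp
    rwa [Nat.mod_eq_of_lt (by omega), Nat.mod_eq_of_lt (by omega)] at hst
  have hb := h1 L (by
    intro p hp
    rw [hLc p hp]
    push_cast
    exact (Nat.lt_floor_add_one _).le)
  by_contra hno
  push Not at hno
  -- all the choices in the lists are bad
  have hall : (∏ p ∈ PD α N, ((L p).card : ℝ)) ≤
      (({a ∈ Bad α (2 - 2 * α + w - ε) N | ∀ p ∈ PD α N, a p ∈ L p}.ncard : ℕ) : ℝ) := by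
    set g : (((p : PD α N) → ZMod p.1)) → ((p : ℕ) → ZMod p) :=
      fun b p => if hp : p ∈ PD α N then b ⟨p, hp⟩ else 0 with hg
    have hgp : ∀ b p (hp : p ∈ PD α N), g b p = b ⟨p, hp⟩ := by
      intro b p hp
      simp only [hg, hp, dif_pos]
    have hfin : {a ∈ Bad α (2 - 2 * α + w - ε) N | ∀ p ∈ PD α N, a p ∈ L p}.Finite :=
      h5.1.subset (Set.sep_subset _ _)
    have h6 := Set.ncard_le_ncard_of_injOn
      (s := ((Fintype.piFinset (fun p : PD α N => L p.1) : Finset ((p : PD α N) → ZMod p.1)) :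
        Set ((p : PD α N) → ZMod p.1)))
      (t := {a ∈ Bad α (2 - 2 * α + w - ε) N | ∀ p ∈ PD α N, a p ∈ L p}) g (by
        intro b hbm
        rw [mem_coe, Fintype.mem_piFinset] at hbm
        have hgL : ∀ p ∈ PD α N, g b p ∈ L p := by
          intro p hp
          rw [hgp b p hp]
          exact hbm ⟨p, hp⟩
        refine ⟨⟨?_, ?_⟩, hgL⟩
        · intro p hp
          have : p ∉ PD α N := fun h => hp (mem_PD.1 h)
          simp only [hg, this, dif_neg, not_false_iff]
        · apply hno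
          intro p hp
          have := hgL p hp
          simp only [hL, mem_image, mem_range] at this
          obtain ⟨t, ht, hta⟩ := this
          refine ⟨t, ?_, hta.symm⟩
          have : (t : ℝ) ≤ m := by exact_mod_cast (by omega : t ≤ m)
          linarith) (by
        intro b _ b' _ hbb
        funext p
        have := congrFun hbb p.1
        rwa [hgp b p.1 p.2, hgp b' p.1 p.2] at this) hfin
    rw [Set.ncard_coe_finset, Fintype.card_piFinset] at h6
    have h7 : ∏ p ∈ PD α N, ((L p).card : ℝ) = ((∏ p : PD α N, (L p.1).card : ℕ) : ℝ) := by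
      push_cast
      exact (prod_coe_sort (PD α N) (fun p => ((L p).card : ℝ))).symm
    rw [h7]
    exact_mod_cast h6
  have hpos : 0 < ∏ p ∈ PD α N, ((L p).card : ℝ) := by
    refine prod_pos fun p hp => ?_
    rw [hLc p hp]
    positivity
  have hlt : (N : ℝ) ^ (-(w - ((2 - 2 * α + w - ε) + 2 * α - 2) - ε / 2) * ((PD α N).card : ℝ)) < 1 := by
    refine Real.rpow_lt_one_of_one_lt_of_neg hN1 ?_
    have hcR : (0 : ℝ) < (PD α N).card := by exact_mod_cast hcard
    have : -(w - ((2 - 2 * α + w - ε) + 2 * α - 2) - ε / 2) = -(ε / 2) := by ring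
    rw [this]
    have : 0 < ε / 2 * ((PD α N).card : ℝ) := by positivity
    linarith
  have hfinal := hall.trans hb
  nlinarith

/-- **Almost all choices.** `PD α N` is the finite set of the primes `N^α ≤ p < 2 N^α`
(`mem_PD`), `coveredCount α N a` is `S_a(N)`. For every `1/2 < α < 1`:

1. for every `c < 1`, `δ > 0` and all large `N` the number of choices `a` with `S_a(N) < N^c` is at
   most `N^((c + 2 α - 2 + δ) |P|)`, `P` the set of primes; in particular the number of choices which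
   violate `S_a(N) ≥ N^(1-ε)` is at most `N^((2 α - 1 - ε + δ) |P|)`, while there are at least
   `N^(α |P|)` choices;
2. the same in all products of lists: if all lists have at least `N^w` classes then the proportion
   of the choices from the lists with `S_a(N) < N^c` is at most `N^(-(w - (c + 2 α - 2) - δ) |P|)`;
3. every choice `a` can be moved by less than `N^(2 α - 1)` at every prime such that
   `S_b(N) ≥ N^(1-ε)` for the new choice `b` (the case `w = 2 α - 1`); for smaller windows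
   `t ≤ N^w` one gets `S_b(N) ≥ N^(2 - 2 α + w - ε)`. -/
theorem result :
    (∀ α c δ : ℝ, 1 / 2 < α → α < 1 → c < 1 → 0 < δ → ∃ N₀ : ℕ, ∀ N : ℕ, N₀ ≤ N →
      (Bad α c N).Finite ∧
      ((Bad α c N).ncard : ℝ) ≤ (N : ℝ) ^ ((c + 2 * α - 2 + δ) * ((PD α N).card : ℝ)) ∧
      (N : ℝ) ^ (α * ((PD α N).card : ℝ)) ≤ ∏ p ∈ PD α N, (p : ℝ)) ∧
    (∀ α c w δ : ℝ, 1 / 2 < α → α < 1 → c < 1 → 0 < δ → ∃ N₀ : ℕ, ∀ N : ℕ, N₀ ≤ N →
      ∀ L : (p : ℕ) → Finset (ZMod p), (∀ p ∈ PD α N, (N : ℝ) ^ w ≤ ((L p).card : ℝ)) →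
      (({a ∈ Bad α c N | ∀ p ∈ PD α N, a p ∈ L p}.ncard : ℕ) : ℝ) ≤
        (N : ℝ) ^ (-(w - (c + 2 * α - 2) - δ) * ((PD α N).card : ℝ)) *
          ∏ p ∈ PD α N, ((L p).card : ℝ)) ∧
    (∀ α w ε : ℝ, 1 / 2 < α → α < 1 → w ≤ 2 * α - 1 → 0 < ε → ∃ N₀ : ℕ, ∀ N : ℕ, N₀ ≤ N →
      ∀ a : (p : ℕ) → ZMod p, ∃ b : (p : ℕ) → ZMod p,
      (∀ p ∈ PD α N, ∃ t : ℕ, (t : ℝ) ≤ (N : ℝ) ^ w ∧ b p = a p + t) ∧
      (N : ℝ) ^ (2 - 2 * α + w - ε) ≤ (coveredCount α N b : ℝ)) := by
  refine ⟨?_, ?_, ?_⟩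
  · intro α c δ hα hα1 hc hδ
    obtain ⟨N₀, h⟩ := eventually_atTop.1 (bad_asymp hα hα1 hc hδ)
    refine ⟨N₀, fun N hN => ⟨(h N hN).1, (h N hN).2, ?_⟩⟩
    rw [Real.rpow_mul (Nat.cast_nonneg _), Real.rpow_natCast, ← prod_const]
    exact prod_le_prod (fun _ _ => by positivity) fun p hp => (mem_PD.1 hp).2.1
  · intro α c w δ hα hα1 hc hδ
    exact eventually_atTop.1 (lists_asymp hα hα1 hc hδ)
  · intro α w ε hα hα1 hw hε
    exact eventually_atTop.1 (windows_asymp hα hα1 hw hε)

end Pool.Agent.Results.MP_bb5cc8_nt.AlmostAllChoices
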