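import Pool.Agent.Q56.BT.Asym

/-!
# Covering `[1, N]` by one residue class for each prime near `N^α`: translates of blocks

Let `a` be ANY choice, let the primes `N^α ≤ p < 2 N^α` be coloured (`κ p`) with at most `N^(α - w)`
primes of each colour, and let the class at `p` be moved by `s (κ p) < T`, `N^w ≤ T ≤ N^α`. The
exponent `2 - 2 α + w` is reached by almost all members of every family of vectors `s` whose values at
two different colours are nearly independent; for `w = 2 α - 1` the exponent is `1`.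
-/

set_option autoImplicit false

open Finset Filter Topology

namespace Pool.Agent.Results.MP_bb5cc8_nt.BlockTranslates

open Pool.Agent.H170R2.PC

/-- the choice `a`, the class at a prime `p` of colour `κ p` being moved by `s (κ p)` -/
def move (a : (p : ℕ) → ZMod p) (κ : ℕ → ℕ) (s : ℕ → ℕ) : (p : ℕ) → ZMod p :=
  fun p => a p + (s (κ p) : ZMod p)

/-- at most `N^(α - w)` primes of the same colour -/
def Blocks (α w : ℝ) (N : ℕ) (κ : ℕ → ℕ) : Prop :=
  ∀ p : ℕ, InRange α N p → ({q : ℕ | InRange α N q ∧ κ q = κ p}.ncard : ℝ) ≤ (N : ℝ) ^ (α - w)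

open Classical in
/-- the values of the members of the family at the colours are less than `T`, and the values at two
different colours take every pair of values at most `A #Ω / T ^ 2` times -/
def PairUniform (α A : ℝ) (N T : ℕ) (κ : ℕ → ℕ) {τ : Type} (Ω : Finset τ) (s : τ → ℕ → ℕ) : Prop :=
  (∀ ω ∈ Ω, ∀ p : ℕ, InRange α N p → s ω (κ p) < T) ∧
  ∀ p q : ℕ, InRange α N p → InRange α N q → κ p ≠ κ q → ∀ x y : ℕ, x < T → y < T →
    ((Ω.filter (fun ω => s ω (κ p) = x ∧ s ω (κ q) = y)).card : ℝ) * (T : ℝ) ^ 2 ≤ A * Ω.card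

/-- linear functions modulo a prime are pairwise independent -/
lemma affine_uniform {α : ℝ} {N T : ℕ} {κ : ℕ → ℕ} (hT : T.Prime)
    (hκ : ∀ p : ℕ, InRange α N p → κ p < T) :
    PairUniform α 1 N T κ (range T ×ˢ range T) (fun x c => (x.1 + x.2 * c) % T) := by
  classical
  have : Fact T.Prime := ⟨hT⟩
  refine ⟨fun ω _ p _ => Nat.mod_lt _ hT.pos, fun p q hp hq hpq x y _ _ => ?_⟩
  have h1 : ((range T ×ˢ range T).filter (fun ω : ℕ × ℕ =>
      (ω.1 + ω.2 * κ p) % T = x ∧ (ω.1 + ω.2 * κ q) % T = y)).card ≤ 1 := by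
    rw [card_le_one]
    rintro ⟨u, v⟩ h ⟨u', v'⟩ h'
    simp only [mem_filter, mem_product, mem_range] at h h'
    obtain ⟨⟨hu, hv⟩, h1, h2⟩ := h
    obtain ⟨⟨hu', hv'⟩, h1', h2'⟩ := h'
    have e1 : ((u : ZMod T) + v * (κ p : ZMod T)) = u' + v' * (κ p : ZMod T) := by
      have := (ZMod.natCast_eq_natCast_iff (u + v * κ p) (u' + v' * κ p) T).2
        (show (u + v * κ p) % T = (u' + v' * κ p) % T by rw [h1, h1'])
      push_cast at this
      exact this
    have e2 : ((u : ZMod T) + v * (κ q : ZMod T)) = u' + v' * (κ q : ZMod T) := by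
      have := (ZMod.natCast_eq_natCast_iff (u + v * κ q) (u' + v' * κ q) T).2
        (show (u + v * κ q) % T = (u' + v' * κ q) % T by rw [h2, h2'])
      push_cast at this
      exact this
    have hne : (κ p : ZMod T) - κ q ≠ 0 := by
      intro h0
      have h3 := (ZMod.natCast_eq_natCast_iff (κ p) (κ q) T).1 (sub_eq_zero.1 h0)
      exact hpq (Nat.ModEq.eq_of_lt_of_lt h3 (hκ p hp) (hκ q hq))
    have e3 : ((v : ZMod T) - v') * ((κ p : ZMod T) - κ q) = 0 := by
      linear_combination e1 - e2
    have e4 : (v : ZMod T) = v' := by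
      rcases mul_eq_zero.1 e3 with h | h
      · exact sub_eq_zero.1 h
      · exact absurd h hne
    have e5 : (u : ZMod T) = u' := by
      rw [e4] at e1
      exact add_right_cancel e1
    have f4 := (ZMod.natCast_eq_natCast_iff v v' T).1 e4
    have f5 := (ZMod.natCast_eq_natCast_iff u u' T).1 e5
    rw [Prod.mk.injEq]
    exact ⟨Nat.ModEq.eq_of_lt_of_lt f5 hu hu', Nat.ModEq.eq_of_lt_of_lt f4 hv hv'⟩
  have h2 : (((range T ×ˢ range T).filter (fun ω : ℕ × ℕ =>
      (ω.1 + ω.2 * κ p) % T = x ∧ (ω.1 + ω.2 * κ q) % T = y)).card : ℝ) ≤ 1 := by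
    exact_mod_cast h1
  have h3 : ((range T ×ˢ range T).card : ℝ) = (T : ℝ) ^ 2 := by
    rw [card_product, card_range]; push_cast; ring
  rw [h3]
  exact mul_le_mul_of_nonneg_right h2 (by positivity)

/-- the vector `t` as a function on the natural numbers -/
def ext {r : ℕ} (t : Fin r → ℕ) (c : ℕ) : ℕ := if h : c < r then t ⟨c, h⟩ else 0

/-- independent values are pairwise independent -/
lemma product_uniform {α : ℝ} {N T r : ℕ} {κ : ℕ → ℕ}
    (hκ : ∀ p : ℕ, InRange α N p → κ p < r) :
    PairUniform α 1 N T κ (Fintype.piFinset (fun _ : Fin r => range T)) ext := by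
  classical
  refine ⟨fun ω hω p hp => ?_, fun p q hp hq hpq x y hx hy => ?_⟩
  · rw [Fintype.mem_piFinset] at hω
    unfold ext
    rw [dif_pos (hκ p hp)]
    exact mem_range.1 (hω _)
  · obtain ⟨i, hi⟩ : ∃ i : Fin r, i = ⟨κ p, hκ p hp⟩ := ⟨_, rfl⟩
    obtain ⟨j, hj⟩ : ∃ j : Fin r, j = ⟨κ q, hκ q hq⟩ := ⟨_, rfl⟩
    have hij : i ≠ j := by
      rw [hi, hj]
      intro h
      exact hpq (Fin.mk.inj_iff.1 h)
    have e1 : ∀ t : Fin r → ℕ, ext t (κ p) = t i := by
      intro t
      unfold ext
      rw [dif_pos (hκ p hp), hi]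
    have e2 : ∀ t : Fin r → ℕ, ext t (κ q) = t j := by
      intro t
      unfold ext
      rw [dif_pos (hκ q hq), hj]
    simp only [e1, e2]
    set Ω := Fintype.piFinset (fun _ : Fin r => range T) with hΩ
    have h1 : ((Ω.filter (fun t => t i = x ∧ t j = y)) ×ˢ (range T ×ˢ range T)).card ≤ Ω.card := by
      refine card_le_card_of_injOn
        (fun z => Function.update (Function.update z.1 i z.2.1) j z.2.2) ?_ ?_
      · rintro ⟨t, u, v⟩ h
        rw [mem_coe, mem_product, mem_filter, mem_product, mem_range, mem_range] at h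
        obtain ⟨⟨h1, _⟩, h2, h3⟩ := h
        rw [mem_coe, hΩ, Fintype.mem_piFinset]
        rw [hΩ, Fintype.mem_piFinset] at h1
        intro k
        by_cases hk : k = j
        · subst hk
          simp only [Function.update_self]
          exact mem_range.2 h3
        · by_cases hk' : k = i
          · subst hk'
            simp only [Function.update_of_ne hk, Function.update_self]
            exact mem_range.2 h2
          · simp only [Function.update_of_ne hk, Function.update_of_ne hk']
            exact h1 k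
      · rintro ⟨t, u, v⟩ h ⟨t', u', v'⟩ h' he
        rw [mem_coe, mem_product, mem_filter] at h h'
        obtain ⟨⟨_, h1, h2⟩, _⟩ := h
        obtain ⟨⟨_, h1', h2'⟩, _⟩ := h'
        simp only at h1 h2 h1' h2' he
        have g1 : v = v' := by
          have := congrFun he j
          simpa using this
        have g2 : u = u' := by
          have := congrFun he i
          simpa [Function.update_of_ne hij] using this
        have g3 : t = t' := by
          funext k
          by_cases hk : k = j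
          · rw [hk, h2, h2']
          · by_cases hk' : k = i
            · rw [hk', h1, h1']
            · have := congrFun he k
              simpa [Function.update_of_ne hk, Function.update_of_ne hk'] using this
        rw [g1, g2, g3]
    rw [card_product, card_product, card_range] at h1
    have h2 : ((Ω.filter (fun t => t i = x ∧ t j = y)).card : ℝ) * (T : ℝ) ^ 2 ≤ Ω.card := by
      have : ((Ω.filter (fun t => t i = x ∧ t j = y)).card : ℝ) * ((T : ℝ) * T) ≤ Ω.card := by
        exact_mod_cast h1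
      rw [sq]
      exact this
    rw [one_mul]
    exact h2

open Classical in
/-- For `1/2 < α < 1`, `0 ≤ w ≤ 2 α - 1`, `ε > 0`, `A ≥ 0` and all large `N`, for EVERY choice `a`, every
colouring `κ` with at most `N^(α - w)` primes `N^α ≤ p < 2 N^α` of each colour, `N^w ≤ T ≤ N^α` and
every `c`:

1. in every pairwise uniform family (constant `A`) at most `N^(c - (2 - 2 α + w) + ε) #Ω` members `s`
   are such that the moved choice `a p + s (κ p)` covers less than `N^c` integers of `[1, N]`;
2. if `T` is a prime and the colours are less than `T`, this holds for the `T ^ 2` linear functions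
   `s = (u + v c) mod T`, `0 ≤ u, v < T`, of the colour `c`;
3. if the colours are less than `r`, it holds for all the `T ^ r` vectors. -/
theorem result : ∀ α w ε A : ℝ, 1 / 2 < α → α < 1 → 0 ≤ w → w ≤ 2 * α - 1 → 0 < ε → 0 ≤ A →
    ∃ N₀ : ℕ, ∀ N : ℕ, N₀ ≤ N → ∀ (a : (p : ℕ) → ZMod p) (κ : ℕ → ℕ), Blocks α w N κ →
    ∀ T : ℕ, (N : ℝ) ^ w ≤ T → (T : ℝ) ≤ (N : ℝ) ^ α → ∀ c : ℝ,
    (∀ (τ : Type) (Ω : Finset τ) (s : τ → ℕ → ℕ), PairUniform α A N T κ Ω s →
      ((Ω.filter (fun ω => (coveredCount α N (move a κ (s ω)) : ℝ) < (N : ℝ) ^ c)).card : ℝ) ≤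
        (N : ℝ) ^ (c - (2 - 2 * α + w) + ε) * Ω.card) ∧
    (T.Prime → (∀ p : ℕ, InRange α N p → κ p < T) →
      (((range T ×ˢ range T).filter (fun x : ℕ × ℕ =>
        (coveredCount α N (move a κ (fun c => (x.1 + x.2 * c) % T)) : ℝ) < (N : ℝ) ^ c)).card : ℝ) ≤
        (N : ℝ) ^ (c - (2 - 2 * α + w) + ε) * (T : ℝ) ^ 2) ∧
    (∀ r : ℕ, (∀ p : ℕ, InRange α N p → κ p < r) →
      (((Fintype.piFinset (fun _ : Fin r => range T)).filter (fun t : Fin r → ℕ =>
        (coveredCount α N (move a κ (ext t)) : ℝ) < (N : ℝ) ^ c)).card : ℝ) ≤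
        (N : ℝ) ^ (c - (2 - 2 * α + w) + ε) * (T : ℝ) ^ r) := by
  intro α w ε A hα hα1 hw hw1 hε hA
  obtain ⟨N₀, h⟩ := eventually_atTop.1 (Pool.Agent.Q56.BT.fam_asymp (A := max A 1) hα hα1 hw hw1 hε
    (le_max_of_le_left hA))
  refine ⟨N₀, fun N hN a κ hκ T hT1 hT2 c => ?_⟩
  have key : ∀ A' : ℝ, A' ≤ max A 1 → ∀ (τ : Type) (Ω : Finset τ) (s : τ → ℕ → ℕ),
      PairUniform α A' N T κ Ω s →
      ((Ω.filter (fun ω => (coveredCount α N (move a κ (s ω)) : ℝ) < (N : ℝ) ^ c)).card : ℝ) ≤
        (N : ℝ) ^ (c - (2 - 2 * α + w) + ε) * Ω.card := by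
    intro A' hA' τ Ω s hs
    have h1 := h N hN τ Ω s a κ T hT1 hT2 hs.1 hκ (fun p q hp hq hpq x y hx hy =>
      (hs.2 p q hp hq hpq x y hx hy).trans (mul_le_mul_of_nonneg_right hA' (Nat.cast_nonneg _))) c
    exact h1
  refine ⟨key A (le_max_left _ _), fun hT hc => ?_, fun r hr => ?_⟩
  · have h1 := key 1 (le_max_right _ _) _ _ _ (affine_uniform hT hc)
    have h3 : ((range T ×ˢ range T).card : ℝ) = (T : ℝ) ^ 2 := by
      rw [card_product, card_range]; push_cast; ring
    rw [h3] at h1
    exact h1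
  · have h1 := key 1 (le_max_right _ _) _ _ _ (product_uniform hr)
    have h3 : ((Fintype.piFinset (fun _ : Fin r => range T)).card : ℝ) = (T : ℝ) ^ r := by
      rw [Fintype.card_piFinset]
      simp
    rw [h3] at h1
    exact h1

end Pool.Agent.Results.MP_bb5cc8_nt.BlockTranslates
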