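import Pool.Agent.Results.MP_bb5cc8_nt.AlmostAllChoices

/-!
# Covering `[1, N]` by one residue class for each prime near `N^α`: lines of choices

For every choice `a` and every direction `b` (units modulo all the primes) the number of
`λ ∈ [1, Λ]` such that the choice `a + λ b` has `S(N) < N^c` is at most
`N^(c - 1 + δ) (Λ + N^(2 α))`. With `b = -1` this is a statement on the covered integers in
the intervals `(λ, λ + N]`, with `a = 0` on the dilates `λ b` of a choice.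

The proof: for fixed `n` the `λ` for which `n` is in the class of `p` form a residue class modulo
`p`; this gives a large sieve inequality in `λ` for the number of primes covering `n`.
-/

set_option autoImplicit false

open Finset Filter Topology

namespace Pool.Agent.Results.MP_bb5cc8_nt.LinesOfChoices

open Pool.Agent.H170R2.PC
open Pool.Agent.Results.MP_bb5cc8_nt.AlmostAllChoices (cls cls_card)

open Classical in
/-- the number of the primes of `D` whose class contains `n`, for the choice `a + λ b` -/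
noncomputable def ff (D : Finset ℕ) (a b : (p : ℕ) → ZMod p) (l n : ℕ) : ℝ :=
  ∑ p ∈ D, (if (n : ZMod p) = a p + l * b p then (1 : ℝ) else 0)

lemma ff_nonneg (D : Finset ℕ) (a b : (p : ℕ) → ZMod p) (l n : ℕ) : 0 ≤ ff D a b l n := by
  unfold ff
  exact sum_nonneg fun p _ => by split_ifs <;> norm_num

/-- the large sieve in `λ` -/
lemma variance {D : Finset ℕ} {Q : ℕ} {a b : (p : ℕ) → ZMod p}
    (hD : ∀ p ∈ D, p.Prime ∧ p ≤ Q) (hb : ∀ p ∈ D, b p ≠ 0) (Λ n : ℕ) :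
    ∑ l ∈ Icc 1 Λ, (ff D a b l n - ∑ p ∈ D, 1 / (p : ℝ)) ^ 2 ≤
      6 * ((Λ : ℝ) + (Q : ℝ) ^ 2) * ∑ p ∈ D, 1 / (p : ℝ) := by
  classical
  set I : ℕ → Finset ℕ := fun p => {(((n : ZMod p) - a p) * (b p)⁻¹).val} with hI
  have hLS := Pool.Agent.H174R3.D6LS.taskLS Λ Q D I (D.image (fun p => ({p} : Finset ℕ)))
    (fun _ => 1) (fun q hq => (hD q hq).1) (fun q hq => by
      have : NeZero q := ⟨(hD q hq).1.ne_zero⟩
      simp only [hI]
      rw [singleton_subset_iff, mem_range]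
      exact ZMod.val_lt _) (by
      intro s hs
      rw [mem_image] at hs
      obtain ⟨p, hp, rfl⟩ := hs
      refine ⟨by simpa using hp, ?_⟩
      rw [prod_singleton]
      exact (hD p hp).2)
  have hinj : Set.InjOn (fun p : ℕ => ({p} : Finset ℕ)) (D : Set ℕ) :=
    (singleton_injective).injOn
  simp only [one_mul, one_pow] at hLS
  rw [sum_image hinj] at hLS
  simp only [prod_singleton] at hLS
  have hLS' : ∀ l : ℕ, (∑ s ∈ D.image (fun p => ({p} : Finset ℕ)),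
      ∏ q ∈ s, ((if l % q ∈ I q then (1 : ℝ) else 0) - ((I q).card : ℝ) / q)) =
      ff D a b l n - ∑ p ∈ D, 1 / (p : ℝ) := by
    intro l
    rw [sum_image hinj]
    simp only [prod_singleton]
    rw [sum_sub_distrib]
    congr 1
    · unfold ff
      refine sum_congr rfl fun p hp => ?_
      have hpp := (hD p hp).1
      have : Fact p.Prime := ⟨hpp⟩
      have hbp := hb p hp
      have hiff : l % p ∈ I p ↔ (n : ZMod p) = a p + l * b p := by
        simp only [hI, mem_singleton]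
        rw [← ZMod.val_natCast]
        constructor
        · intro h
          have h1 := ZMod.val_injective p h
          rw [h1, mul_assoc, inv_mul_cancel₀ hbp]
          ring
        · intro h
          rw [h]
          congr 1
          rw [add_sub_cancel_left, mul_assoc, mul_inv_cancel₀ hbp, mul_one]
      simp only [hiff]
    · refine sum_congr rfl fun p _ => ?_
      simp only [hI, card_singleton, Nat.cast_one]
  simp only [hLS'] at hLS
  refine hLS.trans (le_of_eq ?_)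
  congr 1
  refine sum_congr rfl fun p _ => ?_
  simp only [hI, card_singleton, Nat.cast_one]

/-- every choice covers with multiplicity -/
lemma total {D : Finset ℕ} {N : ℕ} {a b : (p : ℕ) → ZMod p}
    (hD : ∀ p ∈ D, p.Prime ∧ 2 * p ≤ N) (l : ℕ) :
    (N : ℝ) / 2 * ∑ p ∈ D, 1 / (p : ℝ) ≤ ∑ n ∈ Icc 1 N, ff D a b l n := by
  classical
  unfold ff
  rw [sum_comm, mul_sum]
  refine sum_le_sum fun p hp => ?_
  obtain ⟨hp1, hp3⟩ := hD p hp
  have : NeZero p := ⟨hp1.ne_zero⟩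
  have hpR : (0 : ℝ) < p := by exact_mod_cast hp1.pos
  rw [← sum_filter, sum_const, nsmul_eq_mul, mul_one]
  have e : (Icc 1 N).filter (fun n : ℕ => (n : ZMod p) = a p + l * b p) =
      cls N p (a p + l * b p).val := by
    unfold cls
    ext n
    simp only [mem_filter]
    refine and_congr_right fun _ => ?_
    rw [← ZMod.val_natCast]
    exact ⟨fun h => by rw [h], fun h => ZMod.val_injective p h⟩
  rw [e]
  have h3 := cls_card (N := N) (r := (a p + l * b p).val) hp1.pos (ZMod.val_lt _)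
  have h5 : (N : ℝ) / p < ((N / p : ℕ) : ℝ) + 1 := by
    rw [div_lt_iff₀ hpR]
    have h6 : N < (N / p + 1) * p := by
      have := Nat.lt_div_mul_add (a := N) (b := p) hp1.pos
      rw [add_mul, one_mul]; exact this
    exact_mod_cast h6
  have h7 : 2 ≤ N / p := by
    rw [Nat.le_div_iff_mul_le hp1.pos]; exact hp3
  have h7' : (2 : ℝ) ≤ ((N / p : ℕ) : ℝ) := by exact_mod_cast h7
  have h3' : ((N / p : ℕ) : ℝ) ≤ ((cls N p (a p + l * b p).val).card : ℝ) := by exact_mod_cast h3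
  have h9 : (N : ℝ) / 2 * (1 / (p : ℝ)) = (N : ℝ) / p / 2 := by ring
  rw [h9]
  linarith

/-- the finite inequality -/
lemma finite_bound {D : Finset ℕ} {N Q : ℕ} {a b : (p : ℕ) → ZMod p} {M : ℝ}
    (hD : ∀ p ∈ D, p.Prime ∧ p ≤ Q ∧ 2 * p ≤ N) (hb : ∀ p ∈ D, b p ≠ 0) (Λ : ℕ)
    (hM : 4 * M ≤ N) (hM0 : 0 ≤ M) (hN : 0 < N) (hA : 0 < ∑ p ∈ D, 1 / (p : ℝ)) (B : Finset ℕ)
    (hB : B ⊆ Icc 1 Λ)
    (hBM : ∀ l ∈ B, ((Cov D (fun p => a p + l * b p) N).card : ℝ) ≤ M) :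
    (B.card : ℝ) * N * ∑ p ∈ D, 1 / (p : ℝ) ≤ 96 * M * ((Λ : ℝ) + (Q : ℝ) ^ 2) := by
  classical
  set A : ℝ := ∑ p ∈ D, 1 / (p : ℝ) with hAd
  have hNR : (0 : ℝ) < N := by exact_mod_cast hN
  set S : ℕ → Finset ℕ := fun l => Cov D (fun p => a p + l * b p) N with hS
  -- `f` vanishes outside of `S`
  have hf : ∀ l, ∑ n ∈ S l, ff D a b l n = ∑ n ∈ Icc 1 N, ff D a b l n := by
    intro l
    apply sum_subset
    · exact filter_subset _ _
    · intro n hn hnS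
      unfold ff
      refine sum_eq_zero fun p hp => ?_
      rw [if_neg]
      intro h
      apply hnS
      simp only [hS, Cov, mem_filter]
      exact ⟨hn, p, hp, h⟩
  have h1 : ∀ l ∈ B, (N : ℝ) / 4 * A ≤ ∑ n ∈ S l, (ff D a b l n - A) := by
    intro l hl
    rw [sum_sub_distrib, sum_const, nsmul_eq_mul, hf l]
    have h2 := total (a := a) (b := b) (fun p hp => ⟨(hD p hp).1, (hD p hp).2.2⟩) (N := N) l
    rw [← hAd] at h2
    have h3 := hBM l hl
    have h4 : ((S l).card : ℝ) * A ≤ (N : ℝ) / 4 * A :=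
      mul_le_mul_of_nonneg_right (by linarith) hA.le
    linarith
  have h2 : (B.card : ℝ) * ((N : ℝ) / 4 * A) ≤ ∑ x ∈ B.sigma S, (ff D a b x.1 x.2 - A) := by
    rw [sum_sigma]
    calc (B.card : ℝ) * ((N : ℝ) / 4 * A) = ∑ _l ∈ B, (N : ℝ) / 4 * A := by
          rw [sum_const, nsmul_eq_mul]
      _ ≤ _ := sum_le_sum h1
  have h3 : (∑ x ∈ B.sigma S, (ff D a b x.1 x.2 - A)) ^ 2 ≤
      ((B.card : ℝ) * M) * ((N : ℝ) * (6 * ((Λ : ℝ) + (Q : ℝ) ^ 2) * A)) := by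
    refine (sq_sum_le_card_mul_sum_sq).trans ?_
    have hc : ((B.sigma S).card : ℝ) ≤ B.card * M := by
      rw [card_sigma]
      push_cast
      calc ∑ l ∈ B, ((S l).card : ℝ) ≤ ∑ _l ∈ B, M := sum_le_sum hBM
        _ = _ := by rw [sum_const, nsmul_eq_mul]
    have hs : ∑ x ∈ B.sigma S, (ff D a b x.1 x.2 - A) ^ 2 ≤
        (N : ℝ) * (6 * ((Λ : ℝ) + (Q : ℝ) ^ 2) * A) := by
      rw [sum_sigma]
      calc ∑ l ∈ B, ∑ n ∈ S l, (ff D a b l n - A) ^ 2
          ≤ ∑ l ∈ Icc 1 Λ, ∑ n ∈ Icc 1 N, (ff D a b l n - A) ^ 2 := by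
            refine (sum_le_sum fun l _ => sum_le_sum_of_subset_of_nonneg (filter_subset _ _)
              fun _ _ _ => sq_nonneg _).trans ?_
            exact sum_le_sum_of_subset_of_nonneg hB fun _ _ _ =>
              sum_nonneg fun _ _ => sq_nonneg _
        _ = ∑ n ∈ Icc 1 N, ∑ l ∈ Icc 1 Λ, (ff D a b l n - A) ^ 2 := sum_comm
        _ ≤ ∑ _n ∈ Icc 1 N, 6 * ((Λ : ℝ) + (Q : ℝ) ^ 2) * A :=
            sum_le_sum fun n _ => variance (fun p hp => ⟨(hD p hp).1, (hD p hp).2.1⟩) hb Λ n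
        _ = _ := by
            rw [sum_const, nsmul_eq_mul, Nat.card_Icc, Nat.add_sub_cancel]
    exact mul_le_mul hc hs (sum_nonneg fun _ _ => sq_nonneg _) (by positivity)
  have h4 : ((B.card : ℝ) * ((N : ℝ) / 4 * A)) ^ 2 ≤
      ((B.card : ℝ) * M) * ((N : ℝ) * (6 * ((Λ : ℝ) + (Q : ℝ) ^ 2) * A)) :=
    (pow_le_pow_left₀ (by positivity) h2 2).trans h3
  clear_value A
  rcases Nat.eq_zero_or_pos B.card with h0 | h0
  · rw [h0]
    push_cast
    rw [zero_mul, zero_mul]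
    positivity
  · have hB0 : (0 : ℝ) < B.card := by exact_mod_cast h0
    have hk : 0 < (B.card : ℝ) * N * A / 16 := by positivity
    have h5 : ((B.card : ℝ) * N * A) * ((B.card : ℝ) * N * A / 16) ≤
        (96 * M * ((Λ : ℝ) + (Q : ℝ) ^ 2)) * ((B.card : ℝ) * N * A / 16) := by
      nlinarith
    exact le_of_mul_le_mul_right h5 hk

theorem lines_asymp {α c δ : ℝ} (hα : 1 / 2 < α) (hα1 : α < 1) (hc : c < 1) (hδ : 0 < δ) :
    ∀ᶠ N : ℕ in atTop, ∀ a b : (p : ℕ) → ZMod p, (∀ p : ℕ, InRange α N p → b p ≠ 0) → ∀ Λ : ℕ,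
      ({l : ℕ | 1 ≤ l ∧ l ≤ Λ ∧
        (coveredCount α N (fun p => a p + l * b p) : ℝ) < (N : ℝ) ^ c}.ncard : ℝ) ≤
      (N : ℝ) ^ (c - 1 + δ) * ((Λ : ℝ) + (N : ℝ) ^ (2 * α)) := by
  classical
  set η : ℝ := min (δ / 2) (1 / 2) with hη
  have hη0 : 0 < η := lt_min (by linarith) (by norm_num)
  have hηδ : 2 * η ≤ δ := by
    have := min_le_left (δ / 2) (1 / 2 : ℝ)
    linarith
  have hη1 : η ≤ 1 / 2 := min_le_right _ _
  clear_value η
  have hα0 : 0 < α := by linarith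
  filter_upwards [ev_card hα0 hα1.le hη0 (by linarith), ev_const 16 (show 0 < 1 - α by linarith),
    ev_const 4 (show 0 < 1 - c by linarith), ev_const 1728 hη0, eventually_ge_atTop 1]
    with N h1 h2 h3 h4 hN1' a b hb Λ
  have hN0 : (0 : ℝ) < N := by exact_mod_cast (by omega : 0 < N)
  have hN1 : (1 : ℝ) ≤ N := by exact_mod_cast hN1'
  obtain ⟨X, hX⟩ : ∃ X, X = (N : ℝ) ^ α := ⟨_, rfl⟩
  obtain ⟨Q, hQ⟩ : ∃ Q, Q = ⌈2 * X⌉₊ := ⟨_, rfl⟩
  have hX1 : 1 ≤ X := by rw [hX]; exact Real.one_le_rpow hN1 hα0.le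
  have hX2 : X ^ 2 = (N : ℝ) ^ (2 * α) := by
    rw [hX, ← Real.rpow_mul_natCast hN0.le]
    congr 1
    push_cast
    ring
  have hQ3 : (Q : ℝ) ≤ 3 * X := by
    have := Nat.ceil_lt_add_one (show 0 ≤ 2 * X by positivity)
    rw [← hQ] at this
    linarith
  have hNc : (N : ℝ) ^ (1 - c) * (N : ℝ) ^ c = N := by
    rw [← Real.rpow_add hN0]; simp
  have hNα : (N : ℝ) ^ (1 - α) * X = N := by
    rw [hX, ← Real.rpow_add hN0]; simp
  have hc0 : (0 : ℝ) < (N : ℝ) ^ c := Real.rpow_pos_of_pos hN0 _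
  have h4c : 4 * (N : ℝ) ^ c ≤ N := by
    calc 4 * (N : ℝ) ^ c ≤ (N : ℝ) ^ (1 - c) * (N : ℝ) ^ c :=
          mul_le_mul_of_nonneg_right h3 hc0.le
      _ = N := hNc
  have h16 : 16 * X ≤ N := by
    rw [← hNα]; nlinarith
  have hD : ∀ p ∈ PD α N, p.Prime ∧ p ≤ Q ∧ 2 * p ≤ N := by
    intro p hp
    obtain ⟨p1, p2, p3⟩ := mem_PD.1 hp
    rw [← hX] at p2 p3
    refine ⟨p1, ?_, ?_⟩
    · have : (p : ℝ) ≤ Q := by
        rw [hQ]; exact p3.le.trans (Nat.le_ceil _)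
      exact_mod_cast this
    · have : (2 : ℝ) * p ≤ N := by linarith
      exact_mod_cast this
  have hcard0 : 0 < ((PD α N).card : ℝ) := lt_of_lt_of_le (Real.rpow_pos_of_pos hN0 _) h1
  have hAl : (N : ℝ) ^ (-η) / 2 ≤ ∑ p ∈ PD α N, 1 / (p : ℝ) := by
    calc (N : ℝ) ^ (-η) / 2 = (N : ℝ) ^ (α - η) * (1 / (2 * X)) := by
          have : (N : ℝ) ^ (α - η) = (N : ℝ) ^ (-η) * X := by
            rw [hX, ← Real.rpow_add hN0]; congr 1; ring
          rw [this]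
          field_simp
      _ ≤ (PD α N).card * (1 / (2 * X)) := by gcongr
      _ = ∑ _p ∈ PD α N, 1 / (2 * X) := by rw [sum_const, nsmul_eq_mul]
      _ ≤ _ := by
          refine sum_le_sum fun p hp => ?_
          obtain ⟨p1, p2, p3⟩ := mem_PD.1 hp
          rw [← hX] at p2 p3
          have hpR : (0 : ℝ) < p := by exact_mod_cast p1.pos
          exact one_div_le_one_div_of_le hpR p3.le
  have hη' : 0 < (N : ℝ) ^ (-η) := Real.rpow_pos_of_pos hN0 _
  have hA : 0 < ∑ p ∈ PD α N, 1 / (p : ℝ) := lt_of_lt_of_le (by positivity) hAl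
  set B : Finset ℕ := (Icc 1 Λ).filter
    (fun l => (coveredCount α N (fun p => a p + l * b p) : ℝ) < (N : ℝ) ^ c) with hB
  have hset : {l : ℕ | 1 ≤ l ∧ l ≤ Λ ∧
      (coveredCount α N (fun p => a p + l * b p) : ℝ) < (N : ℝ) ^ c} = (B : Set ℕ) := by
    ext l
    simp only [hB, coe_filter, mem_Icc, Set.mem_ofPred_eq, and_assoc]
  rw [hset, Set.ncard_coe_finset]
  have hmain := finite_bound (D := PD α N) (N := N) (Q := Q) (a := a) (b := b) (M := (N : ℝ) ^ c) hD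
    (fun p hp => hb p (mem_PD.1 hp)) Λ h4c hc0.le (by omega) hA B
    (filter_subset _ _) (by
      intro l hl
      rw [hB, mem_filter] at hl
      rw [← coveredCount_eq]
      exact hl.2.le)
  have hΛ : (Λ : ℝ) + (Q : ℝ) ^ 2 ≤ 9 * ((Λ : ℝ) + X ^ 2) := by
    have : (Q : ℝ) ^ 2 ≤ (3 * X) ^ 2 := pow_le_pow_left₀ (Nat.cast_nonneg _) hQ3 2
    have h0 : (0 : ℝ) ≤ Λ := Nat.cast_nonneg _
    nlinarith
  have hW0 : 0 ≤ (Λ : ℝ) + X ^ 2 := by positivity
  have h5 : (B.card : ℝ) * N * ((N : ℝ) ^ (-η) / 2) ≤ 96 * (N : ℝ) ^ c * (9 * ((Λ : ℝ) + X ^ 2)) := by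
    calc (B.card : ℝ) * N * ((N : ℝ) ^ (-η) / 2) ≤ (B.card : ℝ) * N * ∑ p ∈ PD α N, 1 / (p : ℝ) := by
          gcongr
      _ ≤ 96 * (N : ℝ) ^ c * ((Λ : ℝ) + (Q : ℝ) ^ 2) := hmain
      _ ≤ _ := by gcongr
  have h6 : (B.card : ℝ) ≤ 1728 * (N : ℝ) ^ (c - 1 + η) * ((Λ : ℝ) + X ^ 2) := by
    have e1 : (N : ℝ) ^ (c - 1 + η) * (N * (N : ℝ) ^ (-η)) = (N : ℝ) ^ c := by
      have : (N : ℝ) * (N : ℝ) ^ (-η) = (N : ℝ) ^ (1 + -η) := by
        rw [Real.rpow_add hN0, Real.rpow_one]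
      rw [this, ← Real.rpow_add hN0]
      congr 1
      ring
    have hk : 0 < (N : ℝ) * (N : ℝ) ^ (-η) := by positivity
    refine le_of_mul_le_mul_right (a := (N : ℝ) * (N : ℝ) ^ (-η)) ?_ hk
    calc (B.card : ℝ) * (N * (N : ℝ) ^ (-η)) = 2 * ((B.card : ℝ) * N * ((N : ℝ) ^ (-η) / 2)) := by ring
      _ ≤ 2 * (96 * (N : ℝ) ^ c * (9 * ((Λ : ℝ) + X ^ 2))) := by gcongr
      _ = 1728 * ((N : ℝ) ^ (c - 1 + η) * (N * (N : ℝ) ^ (-η))) * ((Λ : ℝ) + X ^ 2) := by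
          rw [e1]; ring
      _ = _ := by ring
  rw [← hX2]
  refine h6.trans ?_
  apply mul_le_mul_of_nonneg_right _ hW0
  calc 1728 * (N : ℝ) ^ (c - 1 + η) ≤ (N : ℝ) ^ η * (N : ℝ) ^ (c - 1 + η) := by gcongr
    _ = (N : ℝ) ^ (c - 1 + 2 * η) := by rw [← Real.rpow_add hN0]; congr 1; ring
    _ ≤ _ := Real.rpow_le_rpow_of_exponent_le hN1 (by linarith)

/-- The number of the covered integers of the interval `(m, m + N]`, for the choice `a`. -/
noncomputable def coveredIn (α : ℝ) (N m : ℕ) (a : (p : ℕ) → ZMod p) : ℕ :=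
  Set.ncard {n : ℕ | m < n ∧ n ≤ m + N ∧ ∃ p : ℕ, InRange α N p ∧ (n : ZMod p) = a p}

lemma coveredIn_eq (α : ℝ) (N m : ℕ) (a : (p : ℕ) → ZMod p) :
    coveredIn α N m a = coveredCount α N (fun p => a p + m * (-1)) := by
  unfold coveredIn coveredCount
  have : {n : ℕ | m < n ∧ n ≤ m + N ∧ ∃ p : ℕ, InRange α N p ∧ (n : ZMod p) = a p} =
      (fun n => m + n) '' {n : ℕ | 1 ≤ n ∧ n ≤ N ∧ ∃ p : ℕ, InRange α N p ∧
        (n : ZMod p) = a p + m * (-1)} := by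
    ext n
    simp only [Set.mem_ofPred_eq, Set.mem_image]
    constructor
    · rintro ⟨h1, h2, p, hp, h⟩
      refine ⟨n - m, ⟨by omega, by omega, p, hp, ?_⟩, by omega⟩
      rw [Nat.cast_sub h1.le, h]
      ring
    · rintro ⟨k, ⟨h1, h2, p, hp, h⟩, rfl⟩
      refine ⟨by omega, by omega, p, hp, ?_⟩
      push_cast
      rw [h]
      ring
  rw [this]
  exact Set.ncard_image_of_injective _ (add_right_injective m)

/-- **Lines of choices.** Let `1/2 < α < 1`, `c < 1`, `δ > 0`. For all large `N`: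

1. for all choices `a`, all `b` with `b p ≠ 0` for the primes `N^α ≤ p < 2 N^α`, and all `Λ`, the
   number of `l ∈ [1, Λ]` for which the choice `a + l b` covers less than `N^c` integers of `[1, N]` is
   at most `N^(c - 1 + δ) (Λ + N^(2 α))`;
2. (translates) for all choices `a` and all `Λ` the number of `m ∈ [1, Λ]` such that less than `N^c`
   integers of `(m, m + N]` are covered is at most `N^(c - 1 + δ) (Λ + N^(2 α))`;
3. (dilates) for all `b` with `b p ≠ 0` and all `Λ` the number of `l ∈ [1, Λ]` for which the choice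
   `l b` covers less than `N^c` integers of `[1, N]` is at most `N^(c - 1 + δ) (Λ + N^(2 α))`. -/
theorem result : ∀ α c δ : ℝ, 1 / 2 < α → α < 1 → c < 1 → 0 < δ → ∃ N₀ : ℕ, ∀ N : ℕ, N₀ ≤ N →
    (∀ a b : (p : ℕ) → ZMod p, (∀ p : ℕ, InRange α N p → b p ≠ 0) → ∀ Λ : ℕ,
      ({l : ℕ | 1 ≤ l ∧ l ≤ Λ ∧
        (coveredCount α N (fun p => a p + l * b p) : ℝ) < (N : ℝ) ^ c}.ncard : ℝ) ≤
      (N : ℝ) ^ (c - 1 + δ) * ((Λ : ℝ) + (N : ℝ) ^ (2 * α))) ∧
    (∀ a : (p : ℕ) → ZMod p, ∀ Λ : ℕ,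
      ({m : ℕ | 1 ≤ m ∧ m ≤ Λ ∧ (coveredIn α N m a : ℝ) < (N : ℝ) ^ c}.ncard : ℝ) ≤
      (N : ℝ) ^ (c - 1 + δ) * ((Λ : ℝ) + (N : ℝ) ^ (2 * α))) ∧
    (∀ b : (p : ℕ) → ZMod p, (∀ p : ℕ, InRange α N p → b p ≠ 0) → ∀ Λ : ℕ,
      ({l : ℕ | 1 ≤ l ∧ l ≤ Λ ∧
        (coveredCount α N (fun p => l * b p) : ℝ) < (N : ℝ) ^ c}.ncard : ℝ) ≤
      (N : ℝ) ^ (c - 1 + δ) * ((Λ : ℝ) + (N : ℝ) ^ (2 * α))) := by
  intro α c δ hα hα1 hc hδ
  obtain ⟨N₀, h⟩ := eventually_atTop.1 (lines_asymp hα hα1 hc hδ)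
  refine ⟨N₀, fun N hN => ⟨h N hN, fun a Λ => ?_, fun b hb Λ => ?_⟩⟩
  · have h1 := h N hN a (fun _ => -1) (fun p hp => by
      have : Fact p.Prime := ⟨hp.1⟩
      exact neg_ne_zero.2 one_ne_zero) Λ
    simpa only [coveredIn_eq] using h1
  · have h1 := h N hN (fun _ => 0) b hb Λ
    simpa only [zero_add] using h1

end Pool.Agent.Results.MP_bb5cc8_nt.LinesOfChoices
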