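import Pool.Agent.Q247.RK.Prog
import Pool.Agent.H170R2.PC.Defs

set_option autoImplicit false

/-!
# MP_bb5cc8_nt: covering by random sets of primes, all choices of residues

Let `0 < α < 1` and let `Q` be any set of primes `N^α ≤ p < 2 N^α` (for example all of them).  For
`m ≤ |Q|^0.5989` all but a proportion `|Q|^(-η)` of the `m`-element subsets `D` of `Q` have the following
property: for EVERY choice `a` of residues and EVERY `J ⊆ D` at least `c |J| N^(1-α)` of the integers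
`1, …, N` are congruent to `a(p)` modulo `p` for some `p ∈ J`.  This is the largest possible order of
magnitude, the sum of the sizes of the classes is at most `2 |J| N^(1-α)`.
-/

open Finset Filter

namespace Pool.Agent.Results.MP_bb5cc8_nt.RandomPrimes

open Pool.Agent.H170R2.PC Pool.Agent.Q247.RK

/-- The number of integers `1 ≤ n ≤ N` lying in the class `a p` modulo `p` for at least one `p ∈ J`. -/
noncomputable def coveredBy (J : Finset ℕ) (N : ℕ) (a : (p : ℕ) → ZMod p) : ℕ :=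
  Set.ncard {n : ℕ | 1 ≤ n ∧ n ≤ N ∧ ∃ p ∈ J, (n : ZMod p) = a p}

/-- For every choice `a` of residues and every `J ⊆ D` at least `c N^(1-α) |J|` of the integers
`1, …, N` lie in one of the classes `a p`, `p ∈ J`. -/
def NoLoss (α c : ℝ) (N : ℕ) (D : Finset ℕ) : Prop :=
  ∀ J ⊆ D, ∀ a : (p : ℕ) → ZMod p, c * (N : ℝ) ^ (1 - α) * J.card ≤ coveredBy J N a

/-- the members of the window `(j L, (j + 1) L]` of a set -/
def win (T : Finset ℕ) (L j : ℕ) : Finset ℕ := T.filter fun n => (n - 1) / L = j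

theorem sum_win_le (T : Finset ℕ) (L w : ℕ) : ∑ j ∈ range w, (win T L j).card ≤ T.card := by
  classical
  rw [← card_biUnion]
  · apply card_le_card
    intro n hn
    obtain ⟨j, -, hj⟩ := mem_biUnion.1 hn
    exact (mem_filter.1 hj).1
  · intro i _ j _ hij
    simp only [Function.onFun]
    rw [Finset.disjoint_left]
    intro n hn hn'
    exact hij ((mem_filter.1 hn).2.symm.trans (mem_filter.1 hn').2)

theorem noLoss_of_goodP {k C : ℕ} (hk : 1 ≤ k) (hC : 1 ≤ C) {α : ℝ} (hα : 0 < α) {N : ℕ}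
    (hN : 1 ≤ N) (hkN : 6 * (k : ℝ) * (N : ℝ) ^ α ≤ N) {D : Finset ℕ}
    (hD : ∀ p ∈ D, InRange α N p) (hgood : GoodP k C (D.image fun p : ℕ => (p : ℤ))) :
    NoLoss α (1 / (6 * k * C)) N D := by
  classical
  intro J hJ a
  have hk1 : (1 : ℝ) ≤ k := by exact_mod_cast hk
  have hC1 : (1 : ℝ) ≤ C := by exact_mod_cast hC
  have hN1 : (1 : ℝ) ≤ N := by exact_mod_cast hN
  have hNα : (1 : ℝ) ≤ (N : ℝ) ^ α := Real.one_le_rpow hN1 hα.le
  obtain ⟨L, hL⟩ : ∃ L : ℕ, L = ⌈2 * (k : ℝ) * (N : ℝ) ^ α⌉₊ := ⟨_, rfl⟩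
  have hL1 : 2 * (k : ℝ) * (N : ℝ) ^ α ≤ L := by rw [hL]; exact Nat.le_ceil _
  have hL2 : (L : ℝ) ≤ 3 * k * (N : ℝ) ^ α := by
    have h1 : (L : ℝ) < 2 * (k : ℝ) * (N : ℝ) ^ α + 1 := by
      rw [hL]
      exact Nat.ceil_lt_add_one (by positivity)
    have h2 : (1 : ℝ) ≤ k * (N : ℝ) ^ α := by nlinarith
    linarith
  have hL0 : 0 < L := by
    have : (0 : ℝ) < L := lt_of_lt_of_le (by positivity) hL1
    exact_mod_cast this
  set Tn : Finset ℕ := (Icc 1 N).filter fun n : ℕ => ∃ p ∈ J, (n : ZMod p) = a p with hTn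
  have hcov : coveredBy J N a = Tn.card := by
    unfold coveredBy
    rw [← Set.ncard_coe_finset]
    congr 1
    ext n
    simp only [Set.mem_ofPred_eq, hTn, coe_filter, mem_Icc]
    tauto
  have hwin : ∀ j < N / L, J.card ≤ C * (win Tn L j).card := by
    intro j hj
    have h1 := hgood (J.image fun p : ℕ => (p : ℤ)) (image_subset_image hJ)
      ((win Tn L j).image fun n : ℕ => (n : ℤ)) ?_
    · rwa [card_image_of_injective _ Nat.cast_injective,
        card_image_of_injective _ Nat.cast_injective] at h1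
    · intro d hd
      obtain ⟨p, hp, rfl⟩ := mem_image.1 hd
      obtain ⟨hpp, -, hp2⟩ := hD p (hJ hp)
      have : NeZero p := ⟨hpp.ne_zero⟩
      have hp0 : 0 < p := hpp.pos
      obtain ⟨r, hr⟩ : ∃ r : ℕ, r = (a p - ((j * L + 1 : ℕ) : ZMod p)).val := ⟨_, rfl⟩
      have hrp : r < p := by rw [hr]; exact ZMod.val_lt _
      have hkp : k * p ≤ L := by
        have h2 : (k : ℝ) * p ≤ L := by
          refine le_trans ?_ hL1
          nlinarith
        exact_mod_cast h2
      refine ⟨((j * L + 1 + r : ℕ) : ℤ), fun i hi => ?_⟩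
      refine mem_image.2 ⟨j * L + 1 + r + i * p, ?_, by push_cast; ring⟩
      have h3 : i * p + p ≤ L := by
        calc i * p + p = (i + 1) * p := by ring
          _ ≤ k * p := Nat.mul_le_mul_right _ hi
          _ ≤ L := hkp
      have hle : (j + 1) * L ≤ N :=
        (Nat.mul_le_mul_right _ hj).trans (Nat.div_mul_le_self _ _)
      have h4 : (j + 1) * L = j * L + L := by ring
      unfold win
      rw [mem_filter, hTn, mem_filter, mem_Icc]
      refine ⟨⟨⟨by omega, by omega⟩, p, hp, ?_⟩, ?_⟩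
      · have h5 : ((r : ℕ) : ZMod p) = a p - ((j * L + 1 : ℕ) : ZMod p) := by
          rw [hr, ZMod.natCast_zmod_val]
        have h6 : ((j * L + 1 + r + i * p : ℕ) : ZMod p) =
            ((j * L + 1 : ℕ) : ZMod p) + ((r : ℕ) : ZMod p) := by
          push_cast
          rw [ZMod.natCast_self]
          ring
        rw [h6, h5]
        ring
      · have h7 : j * L + 1 + r + i * p - 1 = r + i * p + L * j := by
          have : L * j = j * L := mul_comm _ _
          omega
        rw [h7, Nat.add_mul_div_left _ _ hL0, Nat.div_eq_of_lt (by omega), zero_add]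
  have hsum : (N / L) * J.card ≤ C * Tn.card := by
    calc (N / L) * J.card = ∑ _j ∈ range (N / L), J.card := by simp
      _ ≤ ∑ j ∈ range (N / L), C * (win Tn L j).card :=
          sum_le_sum fun j hj => hwin j (mem_range.1 hj)
      _ = C * ∑ j ∈ range (N / L), (win Tn L j).card := by rw [mul_sum]
      _ ≤ C * Tn.card := Nat.mul_le_mul_left _ (sum_win_le _ _ _)
  have hw : (N : ℝ) ^ (1 - α) / (6 * k) ≤ ((N / L : ℕ) : ℝ) := by
    have h1 : (N : ℝ) / L < ((N / L : ℕ) : ℝ) + 1 := by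
      have h2 : (L : ℝ) * ((N / L : ℕ) : ℝ) + (N % L : ℕ) = N := by
        exact_mod_cast Nat.div_add_mod N L
      have h3 : ((N % L : ℕ) : ℝ) < L := by exact_mod_cast Nat.mod_lt N hL0
      have hLr : (0 : ℝ) < L := by exact_mod_cast hL0
      rw [div_lt_iff₀ hLr]
      linarith
    have h4 : (N : ℝ) ^ (1 - α) / (3 * k) ≤ (N : ℝ) / L := by
      rw [Real.rpow_sub (by linarith), Real.rpow_one]
      have hLr : (0 : ℝ) < L := by exact_mod_cast hL0
      rw [div_div]
      apply div_le_div_of_nonneg_left (by linarith) hLr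
      linarith
    have h5 : (2 : ℝ) ≤ (N : ℝ) ^ (1 - α) / (3 * k) := by
      rw [Real.rpow_sub (by linarith), Real.rpow_one, div_div, le_div_iff₀ (by positivity)]
      linarith
    have h6 : (N : ℝ) ^ (1 - α) / (6 * k) = ((N : ℝ) ^ (1 - α) / (3 * k)) / 2 := by
      field_simp
      norm_num
    rw [h6]
    linarith
  rw [hcov]
  have h8 : ((N / L : ℕ) : ℝ) * J.card ≤ C * Tn.card := by exact_mod_cast hsum
  have h9 : (N : ℝ) ^ (1 - α) / (6 * k) * J.card ≤ C * Tn.card :=
    (mul_le_mul_of_nonneg_right hw (by positivity)).trans h8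
  have h10 : 1 / (6 * (k : ℝ) * C) * (N : ℝ) ^ (1 - α) * J.card =
      ((N : ℝ) ^ (1 - α) / (6 * k) * J.card) / C := by
    field_simp
  rw [h10, div_le_iff₀ (by linarith)]
  linarith

theorem result (α : ℝ) (h0 : 0 < α) (h1 : α < 1) (η : ℝ) : ∃ c : ℝ, 0 < c ∧ ∃ N₀ : ℕ,
    ∀ N : ℕ, N₀ ≤ N → ∀ Q : Finset ℕ, (∀ p ∈ Q, InRange α N p) →
      ∀ m : ℕ, (m : ℝ) ≤ (Q.card : ℝ) ^ (0.5989 : ℝ) →
        (Nat.card {D : Finset ℕ // D ⊆ Q ∧ D.card = m ∧ ¬ NoLoss α c N D} : ℝ) ≤
          (Q.card : ℝ) ^ (-η) * (Q.card.choose m) := by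
  classical
  obtain ⟨k, hk, hp⟩ := progs
  obtain ⟨C, hC, hb⟩ := hp η
  have hk1 : (1 : ℝ) ≤ k := by exact_mod_cast hk
  have hC1 : (1 : ℝ) ≤ C := by exact_mod_cast hC
  obtain ⟨N₀, hN₀⟩ : ∃ N₀ : ℕ, ∀ N : ℕ, N₀ ≤ N → 6 * (k : ℝ) ≤ (N : ℝ) ^ (1 - α) := by
    have h2 := (tendsto_rpow_atTop (by linarith : 0 < 1 - α)).comp
      (tendsto_natCast_atTop_atTop (R := ℝ))
    have h3 := h2.eventually_ge_atTop (6 * (k : ℝ))
    exact eventually_atTop.1 h3
  refine ⟨1 / (6 * k * C), by positivity, N₀ + 1, fun N hN Q hQ m hm => ?_⟩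
  have hN1 : 1 ≤ N := by omega
  have hkN : 6 * (k : ℝ) * (N : ℝ) ^ α ≤ N := by
    have h2 := hN₀ N (by omega)
    have hN0 : (0 : ℝ) < N := by exact_mod_cast hN1
    calc 6 * (k : ℝ) * (N : ℝ) ^ α ≤ (N : ℝ) ^ (1 - α) * (N : ℝ) ^ α :=
          mul_le_mul_of_nonneg_right h2 (by positivity)
      _ = N := by
          rw [← Real.rpow_add hN0]
          simp
  have hinj : Function.Injective fun p : ℕ => (p : ℤ) := Nat.cast_injective
  have hcardB : (Q.image fun p : ℕ => (p : ℤ)).card = Q.card := card_image_of_injective _ hinj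
  have h2 := hb (Q.image fun p : ℕ => (p : ℤ)) m (by rw [hcardB]; exact hm)
  rw [hcardB] at h2
  refine le_trans ?_ h2
  have key : ∀ D : Finset ℕ, (D ⊆ Q ∧ D.card = m ∧ ¬ NoLoss α (1 / (6 * k * C)) N D) →
      (D.image fun p : ℕ => (p : ℤ)) ⊆ (Q.image fun p : ℕ => (p : ℤ)) ∧
        (D.image fun p : ℕ => (p : ℤ)).card = m ∧ ¬ GoodP k C (D.image fun p : ℕ => (p : ℤ)) := by
    intro D hD
    refine ⟨image_subset_image hD.1, ?_, fun hcon => hD.2.2 ?_⟩
    · rw [card_image_of_injective _ hinj]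
      exact hD.2.1
    · exact noLoss_of_goodP hk hC h0 hN1 hkN (fun p hp => hQ p (hD.1 hp)) hcon
  have : Finite {D : Finset ℤ // D ⊆ (Q.image fun p : ℕ => (p : ℤ)) ∧ D.card = m ∧
      ¬ GoodP k C D} := by
    refine Set.Finite.to_subtype (((Q.image fun p : ℕ => (p : ℤ)).powerset.finite_toSet).subset ?_)
    intro D hD
    rw [Finset.mem_coe, mem_powerset]
    exact hD.1
  have h3 := Nat.card_le_card_of_injective
    (Subtype.map (p := fun D : Finset ℕ => D ⊆ Q ∧ D.card = m ∧ ¬ NoLoss α (1 / (6 * k * C)) N D)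
      (q := fun D : Finset ℤ => D ⊆ (Q.image fun p : ℕ => (p : ℤ)) ∧ D.card = m ∧ ¬ GoodP k C D)
      (fun D : Finset ℕ => D.image fun p : ℕ => (p : ℤ)) key)
    (Subtype.map_injective _ (Finset.image_injective hinj))
  exact_mod_cast h3

end Pool.Agent.Results.MP_bb5cc8_nt.RandomPrimes
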